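import Mathlib

set_option autoImplicit false
set_option linter.unusedSectionVars false
set_option linter.unusedVariables false

/-!
# Alternating forms killed by the rotations of two copies of the standard representation
-/

open Function

noncomputable section

namespace Pool.Agent.P8H30.BP

variable {m N : ℕ}

/-- A function on tuples of basis vectors with the formal properties of the values of an alternating
form killed by the rotations. -/
structure Val (m N : ℕ) (ε : Fin N → ℝ) (F : (Fin m × Fin 2 → Fin N × Fin 2) → ℝ) : Prop where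
  ne : ∀ i, ε i ≠ 0
  inj : ∀ f, ¬ Injective f → F f = 0
  perm : ∀ f (σ : Equiv.Perm (Fin m × Fin 2)), F f = 0 → F (f ∘ σ) = 0
  rot : ∀ i j f, ∑ p, ((if (f p).1 = j then ε j * F (update f p (i, (f p).2)) else 0) -
    (if (f p).1 = i then ε i * F (update f p (j, (f p).2)) else 0)) = 0

variable {ε : Fin N → ℝ} {F : (Fin m × Fin 2 → Fin N × Fin 2) → ℝ}

/-- the pairs -/
def fk (κ : Fin m → Fin N) (p : Fin m × Fin 2) : Fin N × Fin 2 := (κ p.1, p.2)

/-- one odd index and one missing index -/
theorem Val.zero_one (h : Val m N ε F) {f : Fin m × Fin 2 → Fin N × Fin 2} (hf : Injective f)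
    {i j : Fin N} {p0 : Fin m × Fin 2} (h0 : (f p0).1 = i) (h1 : ∀ p, (f p).1 = i → p = p0)
    (hj : ∀ p, (f p).1 ≠ j) : F f = 0 := by
  have hij : i ≠ j := fun e => hj p0 (h0.trans e)
  have k := h.rot i j (update f p0 (j, (f p0).2))
  rw [Finset.sum_eq_single p0] at k
  · rw [update_self, if_pos rfl, if_neg (Ne.symm hij), sub_zero, update_idem] at k
    have e : update f p0 (i, ((j, (f p0).2) : Fin N × Fin 2).2) = f := by
      rw [← h0]
      exact update_eq_self p0 f
    rw [e] at k
    exact (mul_eq_zero.1 k).resolve_left (h.ne j)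
  · intro p _ hp
    rw [update_of_ne hp, if_neg (hj p), if_neg fun e => hp (h1 p e), sub_zero]
  · intro hp
    exact absurd (Finset.mem_univ _) hp

/-- one odd index and one full index -/
theorem Val.one_two (h : Val m N ε F) {f : Fin m × Fin 2 → Fin N × Fin 2} (hf : Injective f)
    {i j : Fin N} (hij : i ≠ j) {s t : Fin 2} (hst : s ≠ t) {p0 q0 q1 : Fin m × Fin 2}
    (h0 : f p0 = (i, s)) (h1 : ∀ p, (f p).1 = i → p = p0) (k0 : f q0 = (j, s))
    (k1 : f q1 = (j, t)) : F f = 0 := by
  have hpq0 : p0 ≠ q0 := by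
    rintro rfl
    rw [h0] at k0
    exact hij (congrArg Prod.fst k0)
  have hpq1 : p0 ≠ q1 := by
    rintro rfl
    rw [h0] at k1
    exact hij (congrArg Prod.fst k1)
  have hqq : q0 ≠ q1 := by
    rintro rfl
    rw [k0] at k1
    exact hst (congrArg Prod.snd k1)
  have k := h.rot j i (update f q1 (i, t))
  have e1 : ∀ p, p ≠ q1 → update f q1 (i, t) p = f p := fun p hp => update_of_ne hp _ _
  have htwo : ∀ r : Fin 2, r = s ∨ r = t := by
    intro r
    omega
  have hterm : ∀ p, p ≠ q1 →
      ((if (update f q1 (i, t) p).1 = i then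
        ε i * F (update (update f q1 (i, t)) p (j, (update f q1 (i, t) p).2)) else 0) -
      (if (update f q1 (i, t) p).1 = j then
        ε j * F (update (update f q1 (i, t)) p (i, (update f q1 (i, t) p).2)) else 0)) = 0 := by
    intro p hp
    rw [e1 p hp]
    have a1 : (if (f p).1 = i then ε i * F (update (update f q1 (i, t)) p (j, (f p).2)) else 0) =
        0 := by
      split_ifs with hc
      · have hpp := h1 p hc
        subst hpp
        rw [h.inj _ fun hinj => ?_, mul_zero]
        refine hpq0 (hinj ?_)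
        rw [update_self, update_of_ne (Ne.symm hpq0), e1 q0 hqq, k0, h0]
      · rfl
    have a2 : (if (f p).1 = j then ε j * F (update (update f q1 (i, t)) p (i, (f p).2)) else 0) =
        0 := by
      split_ifs with hc
      · have hpp : p = q0 := by
          rcases htwo (f p).2 with h2 | h2
          · exact hf (by rw [k0]; exact Prod.ext hc h2)
          · exact absurd (hf (by rw [k1]; exact Prod.ext hc h2)) hp
        subst hpp
        rw [h.inj _ fun hinj => ?_, mul_zero]
        refine hpq0 (hinj ?_)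
        rw [update_self, update_of_ne hpq0, e1 p0 hpq1, k0, h0]
      · rfl
    rw [a1, a2, sub_zero]
  rw [Finset.sum_eq_single q1 (fun p _ hp => hterm p hp)
    (fun hp => absurd (Finset.mem_univ _) hp)] at k
  rw [update_self, if_pos rfl, if_neg hij, sub_zero, update_idem] at k
  have e2 : update f q1 (j, ((i, t) : Fin N × Fin 2).2) = f := by
    change update f q1 (j, t) = f
    rw [← k1]
    exact update_eq_self q1 f
  rw [e2] at k
  exact (mul_eq_zero.1 k).resolve_left (h.ne i)

/-- the exchange -/
theorem Val.exch (h : Val m N ε F) {κ : Fin m → Fin N} (hκ : Injective κ) (a : Fin m) {j : Fin N}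
    (hj : ∀ b, κ b ≠ j) (h0 : F (fk κ) = 0) : F (fk (update κ a j)) = 0 := by
  have k := h.rot (κ a) j (update (fk κ) (a, 1) (j, 1))
  have e0 : ((a, 0) : Fin m × Fin 2) ≠ (a, 1) := by
    intro e
    have e' : (0 : Fin 2) = 1 := congrArg Prod.snd e
    exact absurd e' (by decide)
  have hterm : ∀ p, p ≠ (a, 0) → p ≠ (a, 1) →
      ((if (update (fk κ) (a, 1) (j, 1) p).1 = j then ε j *
        F (update (update (fk κ) (a, 1) (j, 1)) p (κ a, (update (fk κ) (a, 1) (j, 1) p).2)) else 0) -
      (if (update (fk κ) (a, 1) (j, 1) p).1 = κ a then ε (κ a) *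
        F (update (update (fk κ) (a, 1) (j, 1)) p (j, (update (fk κ) (a, 1) (j, 1) p).2)) else 0)) =
        0 := by
    intro p hp0 hp1
    rw [update_of_ne hp1]
    have hj' : ¬ (fk κ p).1 = j := hj p.1
    rw [if_neg hj', if_neg, sub_zero]
    intro e
    have e1 : p.1 = a := hκ e
    obtain ⟨b, r⟩ := p
    change b = a at e1
    subst e1
    have hr : r = 0 ∨ r = 1 := by omega
    rcases hr with rfl | rfl
    · exact hp0 rfl
    · exact hp1 rfl
  rw [← Finset.add_sum_erase _ _ (Finset.mem_univ ((a, 0) : Fin m × Fin 2)),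
    ← Finset.add_sum_erase _ _ (Finset.mem_erase.2 ⟨Ne.symm e0, Finset.mem_univ _⟩),
    Finset.sum_eq_zero (fun p hp => hterm p
      (Finset.ne_of_mem_erase (Finset.mem_of_mem_erase hp)) (Finset.ne_of_mem_erase hp)),
    add_zero] at k
  have ha0 : update (fk κ) (a, 1) (j, 1) (a, 0) = (κ a, 0) := update_of_ne e0 _ _
  rw [ha0, update_self, if_neg (hj a), if_pos rfl, if_pos rfl, if_neg (Ne.symm (hj a)), zero_sub,
    sub_zero, update_idem] at k
  have e1 : update (fk κ) (a, 1) (κ a, ((j, 1) : Fin N × Fin 2).2) = fk κ :=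
    update_eq_self (a, 1) (fk κ)
  have e2 : update (update (fk κ) (a, 1) (j, 1)) (a, 0) (j, ((κ a, 0) : Fin N × Fin 2).2) =
      fk (update κ a j) := by
    funext p
    obtain ⟨b, r⟩ := p
    have hr : r = 0 ∨ r = 1 := by omega
    by_cases hb : b = a
    · subst hb
      rcases hr with rfl | rfl
      · rw [update_self]
        simp [fk]
      · rw [update_of_ne (Ne.symm e0), update_self]
        simp [fk]
    · rw [update_of_ne (fun e => hb (congrArg Prod.fst e)),
        update_of_ne (fun e => hb (congrArg Prod.fst e))]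
      simp [fk, update_of_ne hb]
  rw [e1, e2, h0, mul_zero, add_zero, neg_eq_zero] at k
  exact (mul_eq_zero.1 k).resolve_left (h.ne _)

/-- transpositions of the indices -/
theorem Val.swap (h : Val m N ε F) {κ : Fin m → Fin N} (hκ : Injective κ) (i j : Fin N)
    (hij : i ≠ j) (h0 : F (fk κ) = 0) : F (fk (Equiv.swap i j ∘ κ)) = 0 := by
  have one : ∀ (i j : Fin N), i ≠ j → ∀ a, κ a = i → (∀ b, κ b ≠ j) →
      F (fk (Equiv.swap i j ∘ κ)) = 0 := by
    intro i j hij a ha hj
    have e : Equiv.swap i j ∘ κ = update κ a j := by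
      funext b
      by_cases hb : b = a
      · subst hb
        rw [update_self, comp_apply, ha, Equiv.swap_apply_left]
      · rw [update_of_ne hb, comp_apply, Equiv.swap_apply_of_ne_of_ne
          (fun e => hb (hκ (e.trans ha.symm))) (hj b)]
    rw [e]
    exact h.exch hκ a hj h0
  by_cases hi : ∃ a, κ a = i
  · obtain ⟨a, ha⟩ := hi
    by_cases hj : ∃ b, κ b = j
    · obtain ⟨b, hb⟩ := hj
      have e : fk (Equiv.swap i j ∘ κ) = fk κ ∘ (Equiv.prodCongrLeft fun _ : Fin 2 =>
          Equiv.swap a b) := by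
        funext p
        obtain ⟨c, r⟩ := p
        simp only [fk, comp_apply, Equiv.prodCongrLeft_apply]
        refine Prod.ext ?_ rfl
        change Equiv.swap i j (κ c) = κ (Equiv.swap a b c)
        rw [← ha, ← hb]
        exact (hκ.map_swap _ _ _).symm
      rw [e]
      exact h.perm _ _ h0
    · push Not at hj
      exact one i j hij a ha hj
  · push Not at hi
    by_cases hj : ∃ b, κ b = j
    · obtain ⟨b, hb⟩ := hj
      rw [Equiv.swap_comm]
      exact one j i (Ne.symm hij) b hb hi
    · push Not at hj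
      have e : Equiv.swap i j ∘ κ = κ := by
        funext b
        rw [comp_apply, Equiv.swap_apply_of_ne_of_ne (hi b) (hj b)]
      rw [e]
      exact h0

theorem Val.tau (h : Val m N ε F) (τ : Equiv.Perm (Fin N)) :
    ∀ κ : Fin m → Fin N, Injective κ → F (fk κ) = 0 → F (fk (τ ∘ κ)) = 0 := by
  induction τ using Equiv.Perm.swap_induction_on with
  | one => exact fun κ _ h0 => h0
  | swap_mul f x y hxy ih =>
    intro κ hκ h0
    have h1 := ih κ hκ h0
    have e : ((Equiv.swap x y * f : Equiv.Perm (Fin N)) : Fin N → Fin N) ∘ κ =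
        Equiv.swap x y ∘ (f ∘ κ) := rfl
    rw [e]
    exact h.swap (f.injective.comp hκ) x y hxy h1

theorem exists_perm {κ κ' : Fin m → Fin N} (h : Injective κ) (h' : Injective κ') :
    ∃ τ : Equiv.Perm (Fin N), τ ∘ κ = κ' := by
  classical
  let f : Fin N → Fin N := fun i => if hi : ∃ a, κ a = i then κ' hi.choose else i
  have hf : ∀ a, f (κ a) = κ' a := by
    intro a
    have h1 : ∃ b, κ b = κ a := ⟨a, rfl⟩
    simp only [f]
    rw [dif_pos h1]
    congr 1
    exact h h1.choose_spec
  obtain ⟨g, hg⟩ := Finset.exists_equiv_extend_of_card_eq (α := Fin N)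
    (t := (Finset.univ : Finset (Fin N))) (by rw [Finset.card_univ])
    (s := Finset.univ.image κ) (f := f) (Finset.subset_univ _) (by
      intro x hx y hy hxy
      simp only [Finset.coe_image, Finset.coe_univ, Set.image_univ, Set.mem_range] at hx hy
      obtain ⟨a, rfl⟩ := hx
      obtain ⟨b, rfl⟩ := hy
      rw [hf, hf] at hxy
      rw [h' hxy])
  refine ⟨g.trans (Equiv.subtypeUnivEquiv fun i => Finset.mem_univ i), ?_⟩
  funext a
  have := hg (κ a) (Finset.mem_image.2 ⟨a, Finset.mem_univ _, rfl⟩)
  rw [hf] at this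
  exact this

theorem two_cases {s t : Fin 2} (hst : s ≠ t) (r : Fin 2) : r = s ∨ r = t := by omega

/-- **The theorem.** -/
theorem Val.zero (h : Val m N ε F) (hN : 2 * m ≠ N)
    (h0 : ∀ κ : Fin m → Fin N, Injective κ → ∃ κ0 : Fin m → Fin N, Injective κ0 ∧ F (fk κ0) = 0)
    (f : Fin m × Fin 2 → Fin N × Fin 2) : F f = 0 := by
  classical
  by_cases hinj : Injective f
  swap
  · exact h.inj f hinj
  by_cases hA : ∃ (i : Fin N) (s t : Fin 2), s ≠ t ∧ (∃ p, f p = (i, s)) ∧ ∀ p, f p ≠ (i, t)
  · obtain ⟨i, s, t, hst, ⟨p0, hp0⟩, hnot⟩ := hA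
    have huniq : ∀ p, (f p).1 = i → p = p0 := by
      intro p hp
      rcases two_cases hst (f p).2 with h2 | h2
      · exact hinj (by rw [hp0]; exact Prod.ext hp h2)
      · exact absurd (Prod.ext hp h2) (hnot p)
    have hex : ∃ j : Fin N, (∀ r, ∃ p, f p = (j, r)) ∨ ∀ r p, f p ≠ (j, r) := by
      by_contra hcon
      push Not at hcon
      have hbij : Bijective fun p => (f p).1 := by
        refine ⟨fun p q hpq => ?_, fun j => ?_⟩
        · by_contra hne
          have h2 : (f p).2 ≠ (f q).2 := fun e => hne (hinj (Prod.ext hpq e))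
          obtain ⟨r, hr⟩ := (hcon (f p).1).1
          rcases two_cases h2 r with h3 | h3
          · exact hr p (by rw [h3])
          · exact hr q (by rw [h3]; exact Prod.ext hpq.symm rfl)
        · obtain ⟨r, p, hp⟩ := (hcon j).2
          exact ⟨p, by
            change (f p).1 = j
            rw [hp]⟩
      have hc := Fintype.card_of_bijective hbij
      rw [Fintype.card_prod, Fintype.card_fin, Fintype.card_fin, Fintype.card_fin] at hc
      exact hN (by rw [mul_comm]; exact hc)
    obtain ⟨j, hj | hj⟩ := hex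
    · have hij : i ≠ j := by
        rintro rfl
        obtain ⟨p, hp⟩ := hj t
        exact hnot p hp
      obtain ⟨q0, k0⟩ := hj s
      obtain ⟨q1, k1⟩ := hj t
      exact h.one_two hinj hij hst hp0 huniq k0 k1
    · exact h.zero_one hinj (congrArg Prod.fst hp0) huniq fun p hp => hj (f p).2 p
        (Prod.ext hp rfl)
  · push Not at hA
    let I : Finset (Fin N) := Finset.univ.image fun p => (f p).1
    have hI : ∀ p, (f p).1 ∈ I := fun p => Finset.mem_image.2 ⟨p, Finset.mem_univ _, rfl⟩
    have hfull : ∀ i ∈ I, ∀ r, ∃ p, f p = (i, r) := by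
      intro i hi r
      obtain ⟨p, -, hp⟩ := Finset.mem_image.1 hi
      by_cases hr : (f p).2 = r
      · exact ⟨p, Prod.ext hp hr⟩
      · exact hA i (f p).2 r hr ⟨p, Prod.ext hp rfl⟩
    have hcard : I.card = m := by
      have hb : Bijective fun p => ((⟨(f p).1, hI p⟩, (f p).2) : I × Fin 2) := by
        refine ⟨fun p q hpq => hinj (Prod.ext ?_ ?_), fun x => ?_⟩
        · exact congrArg (fun x : I × Fin 2 => (x.1 : Fin N)) hpq
        · exact congrArg (fun x : I × Fin 2 => x.2) hpq
        · obtain ⟨⟨i, hi⟩, r⟩ := x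
          obtain ⟨p, hp⟩ := hfull i hi r
          refine ⟨p, Prod.ext (Subtype.ext ?_) ?_⟩
          · change (f p).1 = i
            rw [hp]
          · change (f p).2 = r
            rw [hp]
      have hc := Fintype.card_of_bijective hb
      rw [Fintype.card_prod, Fintype.card_prod, Fintype.card_fin, Fintype.card_fin,
        Fintype.card_coe] at hc
      omega
    let e : I ≃ Fin m := Finset.equivFinOfCardEq hcard
    let κ : Fin m → Fin N := fun a => (e.symm a : Fin N)
    have hκ : Injective κ := fun a b hab => e.symm.injective (Subtype.ext hab)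
    let σ : Fin m × Fin 2 → Fin m × Fin 2 := fun p => (e ⟨(f p).1, hI p⟩, (f p).2)
    have hσ : Injective σ := by
      intro p q hpq
      have h1 := e.injective (congrArg Prod.fst hpq)
      have h2 : (σ p).2 = (σ q).2 := by rw [hpq]
      exact hinj (Prod.ext (congrArg Subtype.val h1) h2)
    have hσb : Bijective σ := Finite.injective_iff_bijective.1 hσ
    have hf : f = fk κ ∘ (Equiv.ofBijective σ hσb) := by
      funext p
      refine Prod.ext ?_ rfl
      change (f p).1 = (e.symm (e ⟨(f p).1, hI p⟩) : Fin N)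
      rw [Equiv.symm_apply_apply]
    rw [hf]
    apply h.perm
    obtain ⟨κ0, hκ0, h1⟩ := h0 κ hκ
    obtain ⟨τ, hτ⟩ := exists_perm hκ0 hκ
    rw [← hτ]
    exact h.tau τ κ0 hκ0 h1

end Pool.Agent.P8H30.BP
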