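import Pool.Agent.P8H30.BP.Pf

set_option autoImplicit false
set_option linter.unusedSectionVars false
set_option linter.unusedVariables false

/-!
# The powers of an alternating form as multilinear maps
-/

open Function

noncomputable section

namespace Pool.Agent.P8H30.BP

variable {K : Type} [Field K] {V : Type} [AddCommGroup V] [Module K V]

/-- the product of the values of a bilinear form on the pairs -/
def prodM (B : V →ₗ[K] V →ₗ[K] K) (m : ℕ) : MultilinearMap K (fun _ : Fin m × Fin 2 => V) K :=
  MultilinearMap.mk' (fun v => ∏ i, B (v (i, 0)) (v (i, 1)))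
    (by
      intro v i x y
      obtain ⟨i, j⟩ := i
      have key : ∀ z : V, ∏ l, B (Function.update v (i, j) z (l, 0))
          (Function.update v (i, j) z (l, 1))
          = B (Function.update v (i, j) z (i, 0)) (Function.update v (i, j) z (i, 1))
            * ∏ l ∈ Finset.univ.erase i, B (v (l, 0)) (v (l, 1)) := by
        intro z
        rw [← Finset.mul_prod_erase _ _ (Finset.mem_univ i)]
        congr 1
        refine Finset.prod_congr rfl fun l hl => ?_
        have hl' : l ≠ i := Finset.ne_of_mem_erase hl
        have h1 : ∀ t : Fin 2, ((l, t) : Fin m × Fin 2) ≠ (i, j) := fun t h =>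
          hl' (congrArg Prod.fst h)
        rw [Function.update_of_ne (h1 0), Function.update_of_ne (h1 1)]
      rw [key, key, key, ← add_mul]
      congr 1
      fin_cases j
      · simp
      · simp)
    (by
      intro v i c x
      obtain ⟨i, j⟩ := i
      have key : ∀ z : V, ∏ l, B (Function.update v (i, j) z (l, 0))
          (Function.update v (i, j) z (l, 1))
          = B (Function.update v (i, j) z (i, 0)) (Function.update v (i, j) z (i, 1))
            * ∏ l ∈ Finset.univ.erase i, B (v (l, 0)) (v (l, 1)) := by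
        intro z
        rw [← Finset.mul_prod_erase _ _ (Finset.mem_univ i)]
        congr 1
        refine Finset.prod_congr rfl fun l hl => ?_
        have hl' : l ≠ i := Finset.ne_of_mem_erase hl
        have h1 : ∀ t : Fin 2, ((l, t) : Fin m × Fin 2) ≠ (i, j) := fun t h =>
          hl' (congrArg Prod.fst h)
        rw [Function.update_of_ne (h1 0), Function.update_of_ne (h1 1)]
      rw [key, key, smul_eq_mul, ← mul_assoc]
      congr 1
      fin_cases j
      · simp
      · simp)

theorem prodM_apply (B : V →ₗ[K] V →ₗ[K] K) (m : ℕ) (v : Fin m × Fin 2 → V) :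
    prodM B m v = ∏ i, B (v (i, 0)) (v (i, 1)) := rfl

/-- the power of a bilinear form -/
def pwA (B : V →ₗ[K] V →ₗ[K] K) (m : ℕ) : V [⋀^Fin m × Fin 2]→ₗ[K] K :=
  MultilinearMap.alternatization (prodM B m)

theorem pwA_apply (B : V →ₗ[K] V →ₗ[K] K) (m : ℕ) (v : Fin m × Fin 2 → V) :
    pwA B m v = pw (fun x y => B x y) m v := by
  rw [pwA, MultilinearMap.alternatization_apply]
  unfold pw
  refine Finset.sum_congr rfl fun σ _ => ?_
  rw [MultilinearMap.domDomCongr_apply, prodM_apply, Units.smul_def, zsmul_eq_mul]

/-- the product is killed by skew operators -/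
theorem prodM_kills {B : V →ₗ[K] V →ₗ[K] K} {T : V →ₗ[K] V}
    (h : ∀ u v, B (T u) v + B u (T v) = 0) (m : ℕ) (v : Fin m × Fin 2 → V) :
    ∑ p, prodM B m (update v p (T (v p))) = 0 := by
  rw [Fintype.sum_prod_type]
  refine Finset.sum_eq_zero fun i _ => ?_
  rw [Fin.sum_univ_two]
  have key : ∀ (j : Fin 2) (z : V), prodM B m (update v (i, j) z) =
      B (Function.update v (i, j) z (i, 0)) (Function.update v (i, j) z (i, 1))
        * ∏ l ∈ Finset.univ.erase i, B (v (l, 0)) (v (l, 1)) := by
    intro j z
    rw [prodM_apply, ← Finset.mul_prod_erase _ _ (Finset.mem_univ i)]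
    congr 1
    refine Finset.prod_congr rfl fun l hl => ?_
    have hl' : l ≠ i := Finset.ne_of_mem_erase hl
    have h1 : ∀ t : Fin 2, ((l, t) : Fin m × Fin 2) ≠ (i, j) := fun t h =>
      hl' (congrArg Prod.fst h)
    rw [Function.update_of_ne (h1 0), Function.update_of_ne (h1 1)]
  have h01 : ((i, 1) : Fin m × Fin 2) ≠ (i, 0) := by
    intro e
    have e' : (1 : Fin 2) = 0 := congrArg Prod.snd e
    exact absurd e' (by decide)
  rw [key, key, update_self, update_self, update_of_ne h01, update_of_ne (Ne.symm h01), ← add_mul,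
    h, zero_mul]

theorem pwA_kills {B : V →ₗ[K] V →ₗ[K] K} {T : V →ₗ[K] V}
    (h : ∀ u v, B (T u) v + B u (T v) = 0) (m : ℕ) (v : Fin m × Fin 2 → V) :
    ∑ p, pwA B m (update v p (T (v p))) = 0 := by
  have h1 : ∀ p, pwA B m (update v p (T (v p))) = ∑ σ : Equiv.Perm (Fin m × Fin 2),
      ((Equiv.Perm.sign σ : ℤ) : K) * prodM B m (fun q => update v p (T (v p)) (σ q)) := by
    intro p
    rw [pwA_apply]
    rfl
  rw [Finset.sum_congr rfl fun p _ => h1 p, Finset.sum_comm]
  refine Finset.sum_eq_zero fun σ _ => ?_
  rw [← Finset.mul_sum, ← Equiv.sum_comp σ]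
  have h2 : ∀ q, (fun q' => update v (σ q) (T (v (σ q))) (σ q')) =
      update (fun q' => v (σ q')) q (T ((fun q' => v (σ q')) q)) := by
    intro q
    funext q'
    by_cases hq : q' = q
    · subst hq
      rw [update_self, update_self]
    · rw [update_of_ne hq, update_of_ne fun e => hq (σ.injective e)]
  rw [Finset.sum_congr rfl fun q _ => by rw [h2 q], prodM_kills h, mul_zero]

end Pool.Agent.P8H30.BP
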