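import Pool.Agent.P8H30.BP.Sp
import Pool.Agent.P8H30.BP.Comb
import Pool.Agent.P8H30.BP.Pw

set_option autoImplicit false
set_option linter.unusedSectionVars false
set_option linter.unusedVariables false

/-!
# De Rham-Betti classes on abelian varieties of signature `(1, g - 1)`
-/

open Module Function TensorProduct Matrix

noncomputable section

namespace Pool.Agent.P8H30.BP

open Pool.Agent.Y102 Pool.Agent.W516.DR Pool.Agent.H204R3.GP Pool.Agent.W516.KC
  Pool.Agent.H204R3.SP Pool.Agent.TH119.MX Pool.Agent.R917 Pool.Agent.N208.AM Pool.Agent.N208.AD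
  Pool.Agent.N208.BT Pool.Agent.N163.BTRR2

variable {g : ℕ} {A : AbVar g} {z : Module.End ℚ A.H1} {al : ℝ} {k : ℕ}

/-- the basis which belongs to a frame -/
def ev (A : AbVar g) (z : Module.End ℚ A.H1) (x : Fin (k + 1) → (Fin g → ℂ))
    (p : Fin (k + 1) × Fin 2) : Fin g → ℂ := if p.2 = 0 then x p.1 else A.ext z (x p.1)

theorem ev_zero (x : Fin (k + 1) → (Fin g → ℂ)) (i : Fin (k + 1)) : ev A z x (i, 0) = x i :=
  if_pos rfl

theorem ev_one (x : Fin (k + 1) → (Fin g → ℂ)) (i : Fin (k + 1)) :
    ev A z x (i, 1) = A.ext z (x i) := if_neg (by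
  change ¬ (1 : Fin 2) = 0
  decide)

section forms

variable {x : Fin (k + 1) → (Fin g → ℂ)} (hx : Fr A z al x) (h : HP A z al)

include hx h

theorem E_zz (i j : Fin (k + 1)) : A.E (A.ext z (x i)) (A.ext z (x j)) = 0 := by
  rw [E_skew h.mem h.skew, hx.sq, map_smul, hx.real, smul_zero, neg_zero]

theorem E_ev_ne {i j : Fin (k + 1)} (hij : i ≠ j) (s t : Fin 2) :
    A.E (ev A z x (i, s)) (ev A z x (j, t)) = 0 := by
  have h1 : ∀ r : Fin 2, r = 0 ∨ r = 1 := fun r => by omega
  rcases h1 s with rfl | rfl <;> rcases h1 t with rfl | rfl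
  · rw [ev_zero, ev_zero, hx.real]
  · rw [ev_zero, ev_one, hx.herm, if_neg hij]
  · rw [ev_zero, ev_one, A.E_anti, hx.herm, if_neg (Ne.symm hij), neg_zero]
  · rw [ev_one, ev_one, E_zz hx h]

theorem herm_self (i : Fin (k + 1)) : A.E (x i) (A.ext z (x i)) = sr i * al := by
  rw [hx.herm, if_pos rfl]
  unfold sr
  split_ifs <;> ring

theorem ev_indep : LinearIndependent ℝ (ev A z x) := by
  rw [Fintype.linearIndependent_iff]
  intro c hc
  have h1 : ∀ j, c (j, 1) = 0 := by
    intro j
    have h2 := congrArg (fun v => A.E (x j) v) hc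
    simp only [map_sum, map_smul, map_zero] at h2
    rw [Fintype.sum_prod_type, Finset.sum_eq_single j] at h2
    · rw [Fin.sum_univ_two, ev_zero, ev_one, hx.real, herm_self hx h, smul_zero, zero_add,
        smul_eq_mul] at h2
      refine (mul_eq_zero.1 h2).resolve_right (mul_ne_zero ?_ h.ne)
      intro h3
      have := sr_sq j
      rw [h3, mul_zero] at this
      exact zero_ne_one this
    · intro i _ hij
      rw [Fin.sum_univ_two, ev_zero, ev_one, hx.real, hx.herm, if_neg (Ne.symm hij), smul_zero,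
        smul_zero, add_zero]
    · intro hj
      exact absurd (Finset.mem_univ j) hj
  have h1' : ∀ j, c (j, 0) = 0 := by
    intro j
    have h2 := congrArg (fun v => A.E v (A.ext z (x j))) hc
    simp only [map_sum, map_smul, map_zero, LinearMap.sum_apply, LinearMap.smul_apply,
      LinearMap.zero_apply] at h2
    rw [Fintype.sum_prod_type, Finset.sum_eq_single j] at h2
    · rw [Fin.sum_univ_two, ev_zero, ev_one, E_zz hx h, herm_self hx h, smul_zero, add_zero,
        smul_eq_mul] at h2
      refine (mul_eq_zero.1 h2).resolve_right (mul_ne_zero ?_ h.ne)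
      intro h3
      have := sr_sq j
      rw [h3, mul_zero] at this
      exact zero_ne_one this
    · intro i _ hij
      rw [Fin.sum_univ_two, ev_zero, ev_one, E_zz hx h, hx.herm, if_neg hij, smul_zero,
        smul_zero, add_zero]
    · intro hj
      exact absurd (Finset.mem_univ j) hj
  rintro ⟨i, s⟩
  have hs : s = 0 ∨ s = 1 := by omega
  rcases hs with rfl | rfl
  · exact h1' i
  · exact h1 i

/-- the basis -/
theorem exists_basis (hfull : ∀ u, u ∈ hull A z x) :
    ∃ e : Basis (Fin (k + 1) × Fin 2) ℝ (Fin g → ℂ), (∀ p, e p = ev A z x p) ∧ k + 1 = g := by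
  have hspan : ⊤ ≤ Submodule.span ℝ (Set.range (ev A z x)) := by
    intro u _
    have h1 := hfull u
    unfold hull at h1
    refine (Submodule.span_le.2 ?_) h1
    rintro _ (⟨i, rfl⟩ | ⟨i, rfl⟩)
    · exact Submodule.subset_span ⟨(i, 0), ev_zero x i⟩
    · exact Submodule.subset_span ⟨(i, 1), ev_one x i⟩
  refine ⟨Basis.mk (ev_indep hx h) hspan, fun p => Basis.mk_apply _ _ p, ?_⟩
  have h1 := Module.finrank_eq_card_basis (Basis.mk (ev_indep hx h) hspan)
  rw [Fintype.card_prod, Fintype.card_fin, Fintype.card_fin] at h1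
  have h2 : finrank ℝ (Fin g → ℂ) = 2 * g := by
    have h3 := finrank_real_of_complex (Fin g → ℂ)
    rw [Module.finrank_fin_fun] at h3
    exact h3
  omega

end forms

section kill

variable {m : ℕ}

theorem Phi_kills_spE {φ : MultilinearMap ℚ (fun _ : Fin m × Fin 2 => A.H1) ℚ}
    (hφ : IsDeRhamBettiForm QBar A.dR tau m φ) {y : Module.End ℝ (Fin g → ℂ)}
    (hy : y ∈ spE A (A.LA : Set (Module.End ℚ A.H1))) (u : Fin m × Fin 2 → (Fin g → ℂ)) :
    ∑ p, A.Phi φ (update u p (y (u p))) = 0 := by
  have h0 : dact y (A.Phi φ) = 0 := by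
    induction hy using Submodule.span_induction with
    | mem y hy =>
      obtain ⟨X, hX, rfl⟩ := hy
      refine ext_lam_multi A fun v => ?_
      rw [dact_apply]
      have h1 := A.kills_of_mem hφ hX v
      have h2 : ∀ p, A.Phi φ (update (fun p => A.per (v p)) p (A.ext X (A.per (v p)))) =
          ((φ (update v p (X (v p))) : ℚ) : ℝ) := fun p => by
        rw [A.ext_apply, update_per, A.Phi_per]
      rw [Finset.sum_congr rfl fun p _ => h2 p, ← Rat.cast_sum, h1, Rat.cast_zero]
      rfl
    | zero => exact dact_zero _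
    | add a b _ _ ha hb => rw [dact_add, ha, hb, add_zero]
    | smul c a _ ha => rw [dact_smul, ha, smul_zero]
  rw [← dact_apply, h0]
  rfl

/-- The real extension of an alternating form is alternating. -/
theorem Phi_alt {φ : MultilinearMap ℚ (fun _ : Fin m × Fin 2 => A.H1) ℚ}
    (halt : ∀ v : Fin m × Fin 2 → A.H1, ∀ i j, i ≠ j → v i = v j → φ v = 0)
    (u : Fin m × Fin 2 → (Fin g → ℂ)) {i j : Fin m × Fin 2} (hij : i ≠ j) (hu : u i = u j) :
    A.Phi φ u = 0 := by
  let φA : A.H1 [⋀^Fin m × Fin 2]→ₗ[ℚ] ℚ :=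
    { φ with map_eq_zero_of_eq' := fun v i j h hne => halt v i j hne h }
  have h1 : (A.Phi φ).domDomCongr (Equiv.swap i j) = -A.Phi φ := by
    refine ext_lam_multi A fun v => ?_
    rw [MultilinearMap.domDomCongr_apply]
    change A.Phi φ (fun p => A.per (v (Equiv.swap i j p))) = -(A.Phi φ (fun p => A.per (v p)))
    rw [A.Phi_per, A.Phi_per]
    have h2 := φA.map_swap v hij
    have h3 : φ (fun p => v (Equiv.swap i j p)) = -φ v := h2
    rw [h3, Rat.cast_neg]
  have h2 : A.Phi φ (fun p => u (Equiv.swap i j p)) = -A.Phi φ u :=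
    congrArg (fun F : MultilinearMap ℝ (fun _ : Fin m × Fin 2 => Fin g → ℂ) ℝ => F u) h1
  have h3 : (fun p => u (Equiv.swap i j p)) = u := by
    funext p
    rcases eq_or_ne p i with rfl | hpi
    · rw [Equiv.swap_apply_left, hu]
    · rcases eq_or_ne p j with rfl | hpj
      · rw [Equiv.swap_apply_right, hu]
      · rw [Equiv.swap_apply_of_ne_of_ne hpi hpj]
  rw [h3] at h2
  linarith

/-- the real extension of the power of the Riemann form -/
theorem Phi_pw : A.Phi (pwA A.om m).toMultilinearMap = (pwA A.E m).toMultilinearMap := by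
  refine ext_lam_multi A fun v => ?_
  rw [A.Phi_per]
  change ((pwA A.om m v : ℚ) : ℝ) = pwA A.E m (fun p => A.per (v p))
  rw [pwA_apply, pwA_apply]
  unfold pw
  push_cast
  refine Finset.sum_congr rfl fun σ _ => ?_
  congr 1
  refine Finset.prod_congr rfl fun i _ => ?_
  exact A.om_coe _ _

/-- **Main theorem.** -/
theorem main_cls (h : HP A z al) (hpol : ∀ P ∈ A.EA, ∃ q : Polynomial ℚ, P = Polynomial.aeval z q)
    (hV : ∀ u, u ∈ V0 A z al) (hm : 2 * m ≠ g)
    {φ : MultilinearMap ℚ (fun _ : Fin m × Fin 2 => A.H1) ℚ}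
    (hφ : IsDeRhamBettiForm QBar A.dR tau m φ)
    (halt : ∀ v : Fin m × Fin 2 → A.H1, ∀ i j, i ≠ j → v i = v j → φ v = 0) :
    ∃ q : ℚ, ∀ v, φ v = q * pw (fun u w => A.om u w) m v := by
  obtain ⟨W, e0, hWS⟩ := N773.BTWA2.main g A z al h
  obtain ⟨k, φ', wd⟩ := N402.BTWB2.main g A z al h W e0 hWS
  obtain ⟨b, hon, hrot, -⟩ := exists_frame h wd A.full_LA
  have hx := frame_of h wd hon
  set x : Fin (k + 1) → (Fin g → ℂ) := fun i => φ' (b i) with hxd
  obtain ⟨e, he, hk⟩ := exists_basis hx h fun u => hull_top hx h hpol (hV u)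
  -- the rotations
  have hder : spE A (der A.LA : Set (Module.End ℚ A.H1)) ≤
      spE A (A.LA : Set (Module.End ℚ A.H1)) := spE_mono A.full_LA.der_le
  have hderN : spE A (der A.LA : Set (Module.End ℚ A.H1)) ≤
      spE A (A.NA : Set (Module.End ℚ A.H1)) := spE_mono (A.full_LA.der_le.trans A.full_LA.le)
  have hT : ∀ i j, ∃ y ∈ spE A (der A.LA : Set (Module.End ℚ A.H1)), ∀ l s,
      y (e (l, s)) = (if l = j then sr j • e (i, s) else 0) -
        (if l = i then sr i • e (j, s) else 0) := by
    intro i j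
    obtain ⟨y, hy, hyx⟩ := hrot i j
    have h1 : ∀ l, y (x l) = rotv x i j l := fun l => by
      rw [hxd]
      change y (φ' (b l)) = _
      rw [hyx, phi_rot φ' hon]
    have h2 : ∀ l, y (A.ext z (x l)) = A.ext z (rotv x i j l) := fun l => by
      rw [hxd]
      change y (A.ext z (φ' (b l))) = _
      rw [ext_phi h wd, map_smul, hyx, mulVec_smul, ← phi_rot φ' hon, ext_phi h wd]
    refine ⟨y, hy, fun l s => ?_⟩
    have hs : s = 0 ∨ s = 1 := by omega
    rcases hs with rfl | rfl
    · rw [he, he, he, ev_zero, ev_zero, ev_zero, h1]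
      rfl
    · rw [he, he, he, ev_one, ev_one, ev_one, h2]
      unfold rotv
      rw [map_sub]
      congr 1
      · split_ifs
        · rw [map_smul]
        · rw [map_zero]
      · split_ifs
        · rw [map_smul]
        · rw [map_zero]
  choose y hy hye using hT
  -- the values
  have hval : ∀ c : ℝ, Val m (k + 1) (fun i => sr i) (fun f => A.Phi φ (fun p => e (f p)) -
      c * pwA A.E m (fun p => e (f p))) := by
    intro c
    refine ⟨fun i h3 => ?_, fun f hf => ?_, fun f σ h0 => ?_, fun i j f => ?_⟩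
    · have := sr_sq i
      rw [h3, mul_zero] at this
      exact zero_ne_one this
    · have h1 : ∃ p q, f p = f q ∧ p ≠ q := by
        by_contra hcon
        push Not at hcon
        exact hf fun p q hpq => hcon p q hpq
      obtain ⟨p, q, hpq, hne⟩ := h1
      have h2 : (fun p => e (f p)) p = (fun p => e (f p)) q := by
        change e (f p) = e (f q)
        rw [hpq]
      rw [Phi_alt halt _ hne h2, (pwA A.E m).map_eq_zero_of_eq _ h2 hne, mul_zero, sub_zero]
    · let ΦA : (Fin g → ℂ) [⋀^Fin m × Fin 2]→ₗ[ℝ] ℝ :=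
        { A.Phi φ with map_eq_zero_of_eq' := fun v i j h hne => Phi_alt halt v hne h }
      have h1 : ∀ v : Fin m × Fin 2 → (Fin g → ℂ), (ΦA - c • pwA A.E m) v =
          A.Phi φ v - c * pwA A.E m v := fun v => rfl
      have h2 := (ΦA - c • pwA A.E m).map_perm (fun p => e (f p)) σ
      rw [h1, h1, h0, smul_zero] at h2
      exact h2
    · have h1 := Phi_kills_spE hφ (hder (hy i j)) (fun p => e (f p))
      have h2 := pwA_kills (B := A.E) (T := y i j) (fun u v => by
        rw [skew_spE (hderN (hy i j))]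
        exact neg_add_cancel _) m (fun p => e (f p))
      have h3 : ∀ (F : MultilinearMap ℝ (fun _ : Fin m × Fin 2 => Fin g → ℂ) ℝ) (p),
          F (update (fun p => e (f p)) p (y i j (e (f p)))) =
          (if (f p).1 = j then sr j * F (fun q => e (update f p (i, (f p).2) q)) else 0) -
          (if (f p).1 = i then sr i * F (fun q => e (update f p (j, (f p).2) q)) else 0) := by
        intro F p
        have h4 : ∀ w, update (fun q => e (f q)) p (e w) = fun q => e (update f p w q) := by
          intro w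
          funext q
          by_cases hq : q = p
          · subst hq
            rw [update_self, update_self]
          · rw [update_of_ne hq, update_of_ne hq]
        have h5 : y i j (e (f p)) = (if (f p).1 = j then sr j • e (i, (f p).2) else 0) -
            (if (f p).1 = i then sr i • e (j, (f p).2) else 0) := hye i j (f p).1 (f p).2
        rw [h5, F.map_update_sub]
        congr 1
        · split_ifs
          · rw [F.map_update_smul, smul_eq_mul, h4]
          · exact F.map_coord_zero p (update_self _ _ _)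
        · split_ifs
          · rw [F.map_update_smul, smul_eq_mul, h4]
          · exact F.map_coord_zero p (update_self _ _ _)
      rw [Finset.sum_congr rfl fun p _ => h3 _ p] at h1
      have h2' : ∑ p, (pwA A.E m).toMultilinearMap (update (fun p => e (f p)) p
          (y i j (e (f p)))) = 0 := h2
      rw [Finset.sum_congr rfl fun p _ => h3 _ p] at h2'
      have h6 := congrArg₂ (fun a b : ℝ => a - c * b) h1 h2'
      simp only [mul_zero, sub_zero] at h6
      refine Eq.trans ?_ h6
      rw [Finset.mul_sum, ← Finset.sum_sub_distrib]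
      refine Finset.sum_congr rfl fun p _ => ?_
      change _ = _ - c * ((if (f p).1 = j then sr j *
        pwA A.E m (fun q => e (update f p (i, (f p).2) q)) else 0) -
        (if (f p).1 = i then sr i * pwA A.E m (fun q => e (update f p (j, (f p).2) q)) else 0))
      split_ifs <;> ring
  have hN : 2 * m ≠ k + 1 := by rw [hk]; exact hm
  -- the constant
  obtain ⟨c, hc⟩ : ∃ c : ℝ, ∀ f : Fin m × Fin 2 → Fin (k + 1) × Fin 2,
      A.Phi φ (fun p => e (f p)) - c * pwA A.E m (fun p => e (f p)) = 0 := by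
    by_cases hex : ∃ κ : Fin m → Fin (k + 1), Injective κ
    · obtain ⟨κ0, hκ0⟩ := hex
      have hne : pwA A.E m (fun p => e (fk κ0 p)) ≠ 0 := by
        rw [pwA_apply]
        refine pw_ne _ _ (fun i => sr (κ0 i) * al) (fun i => ?_) (fun i j s hij t => ?_)
          (fun i s => ?_) (fun i => ?_) fun i => ?_
        · refine mul_ne_zero (fun h3 => ?_) h.ne
          have := sr_sq (κ0 i)
          rw [h3, mul_zero] at this
          exact zero_ne_one this
        · change A.E (e (κ0 i, s)) (e (κ0 j, t)) = 0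
          rw [he, he]
          exact E_ev_ne hx h (fun e => hij (hκ0 e)) s t
        · exact A.E_self _
        · change A.E (e (κ0 i, 0)) (e (κ0 i, 1)) = _
          rw [he, he, ev_zero, ev_one, herm_self hx h]
        · change A.E (e (κ0 i, 1)) (e (κ0 i, 0)) = _
          rw [he, he, ev_zero, ev_one, A.E_anti, herm_self hx h]
      refine ⟨A.Phi φ (fun p => e (fk κ0 p)) / pwA A.E m (fun p => e (fk κ0 p)), fun f => ?_⟩
      exact (hval _).zero hN (fun κ hκ => ⟨κ0, hκ0, by
        change _ - _ = (0 : ℝ)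
        rw [div_mul_cancel₀ _ hne, sub_self]⟩) f
    · exact ⟨0, fun f => (hval 0).zero hN (fun κ hκ => absurd ⟨κ, hκ⟩ hex) f⟩
  have hall : A.Phi φ = c • (pwA A.E m).toMultilinearMap := by
    refine Basis.ext_multilinear (fun _ => e) fun f => ?_
    exact sub_eq_zero.1 (hc f)
  have hQ : ∀ v, ((φ v : ℚ) : ℝ) = c * ((pw (fun u w => A.om u w) m v : ℚ) : ℝ) := by
    intro v
    rw [← A.Phi_per φ v, hall]
    change c * (pwA A.E m).toMultilinearMap (fun p => A.per (v p)) = _
    rw [← Phi_pw, A.Phi_per]
    change c * ((pwA A.om m v : ℚ) : ℝ) = _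
    rw [pwA_apply]
  by_cases hw : ∃ w, pw (fun u w => A.om u w) m w ≠ 0
  · obtain ⟨w, hw⟩ := hw
    refine ⟨φ w / pw (fun u w => A.om u w) m w, fun v => ?_⟩
    have h1 := hQ v
    have h2 := hQ w
    have h3 : ((pw (fun u w => A.om u w) m w : ℚ) : ℝ) ≠ 0 := by exact_mod_cast hw
    have h4 : ((φ v : ℚ) : ℝ) = ((φ w / pw (fun u w => A.om u w) m w *
        pw (fun u w => A.om u w) m v : ℚ) : ℝ) := by
      push_cast
      rw [h1, h2]
      field_simp
    exact_mod_cast h4
  · push Not at hw
    refine ⟨0, fun v => ?_⟩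
    have h1 := hQ v
    rw [hw v, Rat.cast_zero, mul_zero] at h1
    rw [zero_mul]
    exact_mod_cast h1

end kill

end Pool.Agent.P8H30.BP
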