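import Pool.Agent.P8H30.BP.Loc

set_option autoImplicit false
set_option linter.unusedSectionVars false
set_option linter.unusedVariables false
set_option linter.unusedSimpArgs false

/-!
# Real frames
-/

noncomputable section

namespace Pool.Agent.P8H30.BP

open Matrix Module Pool.Agent.N208.BT
open Pool.Agent.N558.BTB (Hy Wp VR mat_ext brk_mulVec N_mulVec neg_def sgn_ne nondeg)

variable {n : ℕ} {𝔯 : Submodule ℝ (M n)} {u v : V n}

theorem hf_diag (x : V n) :
    hf x x = ((Complex.normSq (x 0) - ∑ i : Fin n, Complex.normSq (x i.succ) : ℝ) : ℂ) := by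
  unfold hf
  push_cast
  congr 1
  · rw [Complex.normSq_eq_conj_mul_self, mul_comm]
    rfl
  · refine Finset.sum_congr rfl fun i _ => ?_
    rw [Complex.normSq_eq_conj_mul_self, mul_comm]
    rfl

/-- The complement of a positive vector is negative. -/
theorem neg_of_pos {b w : V n} (hb : hf b b = 1) (hw : hf w b = 0) (h0 : w ≠ 0) :
    (hf w w).re < 0 := by
  have hb' : hf b w = 0 := by rw [hf_conj, hw, star_zero]
  have h1 := hf_diag (w 0 • b - b 0 • w)
  have e0 : (w 0 • b - b 0 • w) 0 = 0 := by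
    simp only [Pi.sub_apply, Pi.smul_apply, smul_eq_mul]
    ring
  have h2 : (hf (w 0 • b - b 0 • w) (w 0 • b - b 0 • w)).re ≤ 0 := by
    rw [h1, Complex.ofReal_re, e0, map_zero, zero_sub]
    have : 0 ≤ ∑ i : Fin n, Complex.normSq ((w 0 • b - b 0 • w) i.succ) :=
      Finset.sum_nonneg fun i _ => Complex.normSq_nonneg _
    linarith
  have h3 : hf (w 0 • b - b 0 • w) (w 0 • b - b 0 • w) =
      (Complex.normSq (w 0) : ℂ) + (Complex.normSq (b 0) : ℂ) * hf w w := by
    simp only [hf_sub_left, hf_sub_right, hf_smul_left, hf_smul_right, hb, hw, hb']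
    rw [Complex.normSq_eq_conj_mul_self, Complex.normSq_eq_conj_mul_self]
    change _ = star (w 0) * w 0 + star (b 0) * b 0 * hf w w
    ring
  rw [h3, Complex.add_re, Complex.ofReal_re, Complex.re_ofReal_mul] at h2
  have h4 : 1 ≤ Complex.normSq (b 0) := by
    have h5 := congrArg Complex.re (hf_diag b)
    rw [hb, Complex.ofReal_re, Complex.one_re] at h5
    have : 0 ≤ ∑ i : Fin n, Complex.normSq (b i.succ) :=
      Finset.sum_nonneg fun i _ => Complex.normSq_nonneg _
    linarith
  have h5 := Complex.normSq_nonneg (w 0)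
  by_contra hcon
  push Not at hcon
  have h6 : (hf w w).re = 0 := by nlinarith
  have h7 : Complex.normSq (w 0) = 0 := by
    rw [h6] at h2
    linarith
  have h8 := congrArg Complex.re (hf_diag w)
  rw [Complex.ofReal_re, h6, h7, zero_sub] at h8
  have h9 : ∑ i : Fin n, Complex.normSq (w i.succ) = 0 := by linarith
  rw [Finset.sum_eq_zero_iff_of_nonneg (fun i _ => Complex.normSq_nonneg _)] at h9
  apply h0
  funext j
  refine Fin.cases ?_ (fun i => ?_) j
  · exact Complex.normSq_eq_zero.1 h7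
  · exact Complex.normSq_eq_zero.1 (h9 i (Finset.mem_univ i))

/-- orthonormal families in the real form -/
structure Fam (𝔯 : Submodule ℝ (M n)) (u v : V n) (k : ℕ) (b : Fin (k + 1) → V n) : Prop where
  mem : ∀ i, VR 𝔯 u v (b i)
  on : ∀ i j, hf (b i) (b j) = if i = j then (if i = 0 then 1 else -1) else 0

theorem hf_sum_left {ι : Type} (s : Finset ι) (c : ι → V n) (y : V n) :
    hf (∑ j ∈ s, c j) y = ∑ j ∈ s, hf (c j) y := by
  classical
  induction s using Finset.induction_on with
  | empty => rw [Finset.sum_empty, Finset.sum_empty, hf_zero_left]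
  | insert j s hj ih => rw [Finset.sum_insert hj, Finset.sum_insert hj, hf_add_left, ih]

/-- the sign -/
def sg {k : ℕ} (i : Fin (k + 1)) : ℂ := if i = 0 then 1 else -1

theorem sg_sq {k : ℕ} (i : Fin (k + 1)) : sg i * sg i = 1 := by
  unfold sg
  split_ifs <;> norm_num

theorem indep {k : ℕ} {b : Fin (k + 1) → V n}
    (hon : ∀ i j, hf (b i) (b j) = if i = j then (if i = 0 then 1 else -1) else 0) :
    LinearIndependent ℂ b := by
  rw [Fintype.linearIndependent_iff]
  intro c hc i
  have h1 := congrArg (fun x => hf x (b i)) hc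
  simp only [hf_sum_left, hf_zero_left, hf_smul_left, hon] at h1
  rw [Finset.sum_eq_single i (fun j _ hj => by rw [if_neg hj, mul_zero])
    (fun h => absurd (Finset.mem_univ i) h), if_pos rfl] at h1
  have h2 : sg i ≠ 0 := fun h => by
    have := sg_sq i
    rw [h, mul_zero] at this
    exact zero_ne_one this
  exact (mul_eq_zero.1 h1).resolve_right h2

theorem card_le {k : ℕ} {b : Fin (k + 1) → V n}
    (hon : ∀ i j, hf (b i) (b j) = if i = j then (if i = 0 then 1 else -1) else 0) :
    k ≤ n := by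
  have h1 := (indep hon).fintype_card_le_finrank
  rw [Fintype.card_fin, Module.finrank_fin_fun] at h1
  omega

/-- the remainder after the projection to a family -/
def rem {k : ℕ} (b : Fin (k + 1) → V n) (w : V n) : V n := w - ∑ i, (sg i * hf w (b i)) • b i

theorem rem_orth {k : ℕ} {b : Fin (k + 1) → V n}
    (hon : ∀ i j, hf (b i) (b j) = if i = j then (if i = 0 then 1 else -1) else 0) (w : V n)
    (i : Fin (k + 1)) : hf (rem b w) (b i) = 0 := by
  unfold rem
  simp only [hf_sub_left, hf_sum_left, hf_smul_left, hon]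
  rw [Finset.sum_eq_single i (fun j _ hj => by rw [if_neg hj, mul_zero])
    (fun h => absurd (Finset.mem_univ i) h), if_pos rfl]
  change hf w (b i) - sg i * hf w (b i) * sg i = 0
  linear_combination -(hf w (b i)) * sg_sq i

theorem VR_zero : VR 𝔯 u v (0 : V n) := ⟨0, 0, 0, Wp.zero, by simp⟩

theorem VR_sum {ι : Type} (s : Finset ι) {c : ι → V n} (h : ∀ i ∈ s, VR 𝔯 u v (c i)) :
    VR 𝔯 u v (∑ i ∈ s, c i) := by
  classical
  induction s using Finset.induction_on with
  | empty => rw [Finset.sum_empty]; exact VR_zero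
  | insert j s hj ih =>
    rw [Finset.sum_insert hj]
    exact (h j (Finset.mem_insert_self j s)).add (ih fun i hi => h i (Finset.mem_insert_of_mem hi))

theorem real_hf (H : Hy 𝔯 u v) {x y : V n} (hx : VR 𝔯 u v x) (hy : VR 𝔯 u v y) :
    ((hf x y).re : ℂ) = hf x y :=
  Pool.Agent.N558.BTB.ofReal_re_of_star (by
    rw [← hf_conj]
    exact (H.VR_real hx hy).symm)

theorem rem_mem (H : Hy 𝔯 u v) {k : ℕ} {b : Fin (k + 1) → V n} (hb : Fam 𝔯 u v k b) {w : V n}
    (hw : VR 𝔯 u v w) : VR 𝔯 u v (rem b w) := by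
  refine hw.sub (VR_sum _ fun i _ => ?_)
  have h1 := (hb.mem i).smul ((sg i).re * (hf w (b i)).re)
  rw [Complex.ofReal_mul, real_hf H hw (hb.mem i)] at h1
  have h2 : ((sg i).re : ℂ) = sg i := by
    unfold sg
    split_ifs <;> simp
  rwa [h2] at h1

theorem exists_start (H : Hy 𝔯 u v) : ∃ b : Fin 1 → V n, Fam 𝔯 u v 0 b := by
  have h2 : (0 : ℝ) < 2 := by norm_num
  have hs : (Real.sqrt 2)⁻¹ * (Real.sqrt 2)⁻¹ = (1 / 2 : ℝ) := by
    rw [← mul_inv, Real.mul_self_sqrt h2.le]
    norm_num
  refine ⟨fun _ => (((Real.sqrt 2)⁻¹ : ℝ) : ℂ) • (u + v), fun i => ?_, fun i j => ?_⟩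
  · refine VR.smul ?_ _
    exact ⟨1, 1, 0, Wp.zero, by simp⟩
  · rw [if_pos (by omega), if_pos (by omega), hf_smul_left,
      hf_smul_right]
    have e : star ((((Real.sqrt 2)⁻¹ : ℝ)) : ℂ) = (((Real.sqrt 2)⁻¹ : ℝ) : ℂ) :=
      Complex.conj_ofReal _
    rw [e, ← mul_assoc, ← Complex.ofReal_mul, hs, hf_add_left, hf_add_right, hf_add_right, H.uu,
      H.vv, H.uv, H.vu]
    push_cast
    norm_num

theorem exists_next (H : Hy 𝔯 u v) {k : ℕ} {b : Fin (k + 1) → V n} (hb : Fam 𝔯 u v k b) {w : V n}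
    (hw : VR 𝔯 u v w) (hne : rem b w ≠ 0) : ∃ b' : Fin (k + 2) → V n, Fam 𝔯 u v (k + 1) b' := by
  have h1 : hf (b 0) (b 0) = 1 := by rw [hb.on, if_pos rfl, if_pos rfl]
  have h2 := neg_of_pos h1 (rem_orth hb.on w 0) hne
  set y := rem b w with hy
  have hyV : VR 𝔯 u v y := rem_mem H hb hw
  have hyy := real_hf H hyV hyV
  set a : ℝ := -(hf y y).re with ha
  have ha0 : 0 < a := by rw [ha]; linarith
  set c : ℝ := (Real.sqrt a)⁻¹ with hc
  have hcc : c * c = a⁻¹ := by
    rw [hc, ← mul_inv, Real.mul_self_sqrt ha0.le]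
  set z : V n := (c : ℂ) • y with hz
  have ec : star (c : ℂ) = c := Complex.conj_ofReal _
  have hzz : hf z z = -1 := by
    rw [hz, hf_smul_left, hf_smul_right, ec, ← mul_assoc, ← Complex.ofReal_mul, hcc, ← hyy]
    have : (hf y y).re = -a := by rw [ha, neg_neg]
    rw [this, ← Complex.ofReal_mul, mul_neg, inv_mul_cancel₀ ha0.ne']
    push_cast
    rfl
  have hzb : ∀ i, hf z (b i) = 0 := fun i => by
    rw [hz, hf_smul_left, rem_orth hb.on, mul_zero]
  have hbz : ∀ i, hf (b i) z = 0 := fun i => by rw [hf_conj, hzb, star_zero]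
  refine ⟨Fin.snoc (α := fun _ => V n) b z, fun i => ?_, fun i j => ?_⟩
  · refine Fin.lastCases ?_ (fun i => ?_) i
    · rw [Fin.snoc_last]
      exact hyV.smul c
    · rw [Fin.snoc_castSucc]
      exact hb.mem i
  · refine Fin.lastCases ?_ (fun i => ?_) i
    · refine Fin.lastCases ?_ (fun j => ?_) j
      · rw [Fin.snoc_last, if_pos rfl, if_neg (Fin.last_pos.ne'), hzz]
      · rw [Fin.snoc_last, Fin.snoc_castSucc, hzb, if_neg (Fin.castSucc_lt_last j).ne']
    · refine Fin.lastCases ?_ (fun j => ?_) j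
      · rw [Fin.snoc_last, Fin.snoc_castSucc, hbz, if_neg (Fin.castSucc_lt_last i).ne]
      · rw [Fin.snoc_castSucc, Fin.snoc_castSucc, hb.on]
        by_cases hij : i = j
        · subst hij
          rw [if_pos rfl, if_pos rfl]
          by_cases hi : i = 0
          · subst hi
            rw [if_pos rfl, Fin.castSucc_zero, if_pos rfl]
          · rw [if_neg hi, if_neg fun h => hi (Fin.castSucc_injective _ (by
              rw [h, Fin.castSucc_zero]))]
        · rw [if_neg hij, if_neg fun h => hij (Fin.castSucc_injective _ h)]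

/-- **The real form has an orthonormal basis.** -/
theorem exists_fam (H : Hy 𝔯 u v) : ∃ b : Fin (n + 1) → V n, Fam 𝔯 u v n b := by
  have key : ∃ (k : ℕ) (b : Fin (k + 1) → V n), Fam 𝔯 u v k b ∧
      ∀ w, VR 𝔯 u v w → rem b w = 0 := by
    by_contra hcon
    push Not at hcon
    have h1 : ∀ k, ∃ b : Fin (k + 1) → V n, Fam 𝔯 u v k b := by
      intro k
      induction k with
      | zero => exact exists_start H
      | succ k ih =>
        obtain ⟨b, hb⟩ := ih
        obtain ⟨w, hw, hne⟩ := hcon k b hb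
        exact exists_next H hb hw hne
    obtain ⟨b, hb⟩ := h1 (n + 1)
    have := card_le hb.on
    omega
  obtain ⟨k, b, hb, hspan⟩ := key
  have hk := card_le hb.on
  have hmem : ∀ w, VR 𝔯 u v w → w ∈ Submodule.span ℂ (Set.range b) := by
    intro w hw
    have h1 := hspan w hw
    rw [rem, sub_eq_zero] at h1
    rw [h1]
    exact Submodule.sum_mem _ fun i _ => Submodule.smul_mem _ _ (Submodule.subset_span ⟨i, rfl⟩)
  have htop : Submodule.span ℂ (Set.range b) = ⊤ := by
    rw [eq_top_iff]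
    intro x _
    obtain ⟨p, q, hp, hq, rfl⟩ := H.exists_decomp x
    exact Submodule.add_mem _ (hmem p hp) (Submodule.smul_mem _ _ (hmem q hq))
  have h1 := finrank_span_eq_card (indep hb.on)
  rw [htop, finrank_top, Module.finrank_fin_fun, Fintype.card_fin] at h1
  have hkn : k = n := by omega
  subst hkn
  exact ⟨b, hb⟩

/-- **Frames.** -/
theorem frame_B (H : Hy 𝔯 u v) : ∃ b : Fin (n + 1) → V n,
    (∀ i j, hf (b i) (b j) = if i = j then (if i = 0 then 1 else -1) else 0) ∧
    ∀ i j, Rot (b i) (b j) ∈ 𝔯 := by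
  obtain ⟨b, hb⟩ := exists_fam H
  exact ⟨b, hb.on, fun i j => Rot_mem H (hb.mem i) (hb.mem j)⟩

end Pool.Agent.P8H30.BP
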