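import Pool.Agent.N208.BT.Fin
import Pool.Agent.N208.BT.RP

set_option autoImplicit false
set_option linter.unusedSectionVars false
set_option linter.unusedVariables false

/-!
# The derived algebra of the Lie algebra of one group
-/

open Module Function TensorProduct Matrix

noncomputable section

namespace Pool.Agent.P8H30.BP

open Pool.Agent.Y102 Pool.Agent.W516.DR Pool.Agent.H204R3.GP Pool.Agent.W516.KC
  Pool.Agent.H204R3.SP Pool.Agent.TH119.MX Pool.Agent.R917 Pool.Agent.N208.AM Pool.Agent.N208.AD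
  Pool.Agent.N208.BT

variable {g : ℕ} {A : AbVar g} {s n : ℕ} {r : Fin s → ℕ} {B : Fin n → Ten A r} {w : Fin s → ℤ}
  {P : Matrix (Fin n) (Fin n) ℂ} {H : Set (Matrix (Fin n) (Fin n) ℂ)}
  {Wt : Matrix (Fin n) (Fin n) ℚ} {N : Matrix (Fin n) (Fin n) ℝ}
  {U : Set (Fin g → ℂ)}

/-- The derived algebra of the Lie algebra of the group is everything on `U`. -/
structure LPart (A : AbVar g) (U : Set (Fin g → ℂ)) (𝔡 : Submodule ℚ (Module.End ℚ A.H1)) :
    Prop where
  stab : ∀ X ∈ A.NA, ∀ u ∈ U, A.ext X u ∈ U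
  der : ∀ X ∈ spE A (der A.NA : Set (Module.End ℚ A.H1)),
      ∃ y ∈ spE A (𝔡 : Set (Module.End ℚ A.H1)), ∀ u ∈ U, X u = y u

/-- **The complex structure is in the Lie algebra of the group**, up to the centre. -/
theorem N_memL (h : Mot w B P) (hW : WRel w B Wt) (hH : PtM P H) (hr : LPart A U (dq B Wt H))
    (hN : RelR B AbVar.JJ N) {Nc Nd : Matrix (Fin n) (Fin n) ℝ}
    (hNc : Nc ∈ spR B (cenA A : Set (Module.End ℚ A.H1)))
    (hNd : Nd ∈ spR B (der A.NA : Set (Module.End ℚ A.H1))) (hNe : N = Nc + Nd)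
    (hα : DomU U B N) :
    Nd ∈ spR B (dq B Wt H : Set (Module.End ℚ A.H1)) := by
  have hq := qM_full h hW hH
  have hdN : dq B Wt H ≤ A.NA := fun Z hZ => (der_mem h hW hZ).1
  have hdd : dq B Wt H ≤ der A.NA := by
    unfold dq der
    exact Submodule.span_mono fun _ ⟨X, hX, Y, hY, e⟩ => ⟨X, hq.le hX, Y, hq.le hY, e⟩
  have hdb : ∀ X ∈ dq B Wt H, ∀ Y ∈ dq B Wt H, X * Y - Y * X ∈ dq B Wt H := fun X hX Y hY =>
    Submodule.subset_span ⟨X, hq.der_le hX, Y, hq.der_le hY, rfl⟩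
  have hle : spR B (der A.NA : Set (Module.End ℚ A.H1)) ≤
      spR B (A.NA : Set (Module.End ℚ A.H1)) := spR_mono der_NA_le
  have hnm : nU B U ≤ spR B (der A.NA : Set (Module.End ℚ A.H1)) := by
    rintro _ ⟨p, hp, -, rfl⟩
    exact pR_snd hp
  refine N113.BT.mem_of_sup (dat h hN hNc hNd hNe) (spR_mono hdd) (spR_br hdb) hnm ?_ ?_ ?_
  · rintro x hx z ⟨p, hp, h1, rfl⟩
    induction hx using Submodule.span_induction with
    | mem x hx =>
      obtain ⟨X, hX, M, hM, rfl⟩ := hx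
      refine ⟨_, pR_br h hX hM hp, fun u hu => ?_, rfl⟩
      rw [LinearMap.sub_apply, Module.End.mul_apply, Module.End.mul_apply, h1 u hu,
        h1 _ (hr.stab X (der_NA_le hX) u hu), map_zero, sub_zero]
    | zero => rw [LinearMap.map_zero₂]; exact Submodule.zero_mem _
    | add a b _ _ ha hb => rw [LinearMap.map_add₂]; exact Submodule.add_mem _ ha hb
    | smul c a _ ha => rw [LinearMap.map_smul₂]; exact Submodule.smul_mem _ _ ha
  · intro z hz
    have h2 : RLie.br N z = 0 := by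
      obtain ⟨p, hp, h1, rfl⟩ := hz
      rw [RLie.br_apply, hα p hp h1, sub_self]
    rw [hNe, LinearMap.map_add₂, cenA_br h hNc (hle (hnm hz)), zero_add] at h2
    exact h2
  · rw [spR, Submodule.span_le]
    rintro _ ⟨X, hX, M, hM, rfl⟩
    obtain ⟨y, hy, h1⟩ := hr.der _ (mem_spE (S := (der A.NA : Set (Module.End ℚ A.H1))) hX)
    obtain ⟨y', hy'⟩ := exists_pR h hdN hy
    have h2 : ((A.ext X, rq M) : Module.End ℝ (Fin g → ℂ) × Matrix (Fin n) (Fin n) ℝ) ∈
        pR B (der A.NA) := Submodule.subset_span ⟨X, hX, M, hM, rfl⟩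
    have h3 := Submodule.sub_mem _ h2 (pR_mono hdd hy')
    have h4 : rq M = y' + (rq M - y') := by abel
    change rq M ∈ _
    rw [h4]
    refine Submodule.add_mem_sup (pR_snd hy') ⟨_, h3, fun u hu => ?_, rfl⟩
    change (A.ext X - y) u = 0
    rw [LinearMap.sub_apply, h1 u hu, sub_self]

/-- **Main theorem**, without a condition on the centre. -/
theorem main_derL (h : Mot w B P) (hW : WRel w B Wt) (hH : PtM P H)
    (hr : LPart A U (dq B Wt H)) (hN : RelR B AbVar.JJ N) (hα : DomU U B N) :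
    ∃ L : Submodule ℚ (Matrix (Fin n) (Fin n) ℚ), (∀ x ∈ L, ∀ y ∈ L, x * y - y * x ∈ L) ∧
      N ∈ Submodule.span ℝ {M | ∃ x ∈ L, M = rq x} ∧
      ∀ x ∈ L, ∀ y ∈ L, x * y - y * x ∈ LQ H := by
  obtain ⟨N', hN', t, X, M, h1, h2⟩ := exists_J h
  have h3 : N = N' := hN.uniq h.li hN'
  subst h3
  have h4 : N ∈ spR B (A.NA : Set (Module.End ℚ A.H1)) := by
    rw [h2]
    exact Submodule.sum_mem _ fun k _ => Submodule.smul_mem _ _ (mem_spR (h1 k).1 (h1 k).2)
  obtain ⟨Nc, hNc, Nd, hNd, hNe⟩ := exists_dec h h4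
  have h5 := N_memL h hW hH hr hN hNc hNd hNe hα
  refine ⟨cdM B Wt H, fun x hx y hy => ?_, ?_, fun x hx y hy => ?_⟩
  · obtain ⟨d, hd, hd'⟩ := cdM_br h hW hH hx hy
    exact ⟨0, (cenA A).zero_mem, d, hd, 0, _, Rel.zero, hd', (zero_add _).symm⟩
  · rw [hNe]
    refine Submodule.add_mem _ ?_ ?_
    · refine Submodule.span_mono ?_ hNc
      rintro _ ⟨Z, hZ, M, hM, rfl⟩
      exact ⟨M, ⟨Z, hZ, 0, (dq B Wt H).zero_mem, M, 0, hM, Rel.zero, (add_zero _).symm⟩, rfl⟩
    · refine Submodule.span_mono ?_ h5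
      rintro _ ⟨d, hd, M, hM, rfl⟩
      exact ⟨M, ⟨0, (cenA A).zero_mem, d, hd, 0, M, Rel.zero, hM, (zero_add _).symm⟩, rfl⟩
  · obtain ⟨d, hd, hd'⟩ := cdM_br h hW hH hx hy
    obtain ⟨-, M', h6, h7⟩ := der_mem h hW hd
    rw [hd'.uniq h.li h6]
    exact h7

/-- **Main theorem**, if the centre acts trivially. -/
theorem main_BL (h : Mot w B P) (hW : WRel w B Wt) (hH : PtM P H) (hc : NoCentre B)
    (hr : LPart A U (dq B Wt H)) (hN : RelR B AbVar.JJ N) (hα : DomU U B N)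
    {z : ℂ} (hz : z ≠ 0) : NormedSpace.exp (KK Wt N z) ∈ H ∧
      HRel w B z (NormedSpace.exp (KK Wt N z)) := by
  obtain ⟨N', hN', t, X, M, h1, h2⟩ := exists_J h
  have h3 : N = N' := hN.uniq h.li hN'
  subst h3
  have h4 : N ∈ spR B (A.NA : Set (Module.End ℚ A.H1)) := by
    rw [h2]
    exact Submodule.sum_mem _ fun k _ => Submodule.smul_mem _ _ (mem_spR (h1 k).1 (h1 k).2)
  obtain ⟨Nc, hNc, Nd, hNd, hNe⟩ := exists_dec h h4
  have h5 := N_memL h hW hH hr hN hNc hNd hNe hα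
  have h6 : Nc = 0 := by
    clear hNe
    induction hNc using Submodule.span_induction with
    | mem x hx =>
      obtain ⟨Z, hZ, M, hM, rfl⟩ := hx
      have h7 : Rel B Z 0 := hc Z hZ.1 fun Y hY => by
        rw [hZ.2 Y hY, sub_self]
        exact Rel.zero
      rw [hM.uniq h.li h7, rq_zero]
    | zero => rfl
    | add a b _ _ ha hb => rw [ha, hb, add_zero]
    | smul c a _ ha => rw [ha, smul_zero]
  rw [h6, zero_add] at hNe
  rw [← hNe] at h5
  refine ⟨exp_mem hH.grp fun d => ?_, hrel_exp hW hN hz⟩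
  unfold KK
  exact ((Wt_mem h hW hH hc d).smul _).add ((stab_spR h hW h5 d).smul _)

/-- A matrix whose exponentials are in the group stabilizes its tensors. -/
theorem stab_of_exp {R : Type} [Fintype R] [DecidableEq R] {H : Set (Matrix R R ℂ)} {F : Subfield ℂ}
    (hH : AlgGrp F H) {X : Matrix R R ℂ} (hX : ∀ t : ℂ, NormedSpace.exp (t • X) ∈ H) (d : ℕ) :
    Stab H d X := by
  intro w hw
  rw [mem_Wt]
  intro h hh
  have h1 : FF h X w = fun _ => 0 := by
    funext t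
    exact hw _ (hH.mul _ hh _ (hX t))
  have h2 := hasDerivAt_FF h X w 0
  rw [h1] at h2
  have h3 := h2.unique (hasDerivAt_const (0 : ℂ) (0 : ℂ))
  unfold FF at h3
  rw [zero_smul, NormedSpace.exp_zero, Matrix.mul_one] at h3
  exact h3

/-- Brackets of elements whose exponentials are in the group. -/
theorem br_mem_dq (h : Mot w B P) (hH : PtM P H) {X Y : Module.End ℚ A.H1}
    (hX : X ∈ A.NA) (hY : Y ∈ A.NA) {M M' : Matrix (Fin n) (Fin n) ℚ} (hM : Rel B X M)
    (hM' : Rel B Y M') (h1 : ∀ t : ℂ, NormedSpace.exp (t • M.map fun q => (q : ℂ)) ∈ H)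
    (h2 : ∀ t : ℂ, NormedSpace.exp (t • M'.map fun q => (q : ℂ)) ∈ H) :
    X * Y - Y * X ∈ dq B Wt H := by
  refine Submodule.subset_span ⟨X, ⟨hX, M, hM, 0, ?_⟩, Y, ⟨hY, M', hM', 0, ?_⟩, rfl⟩
  · rw [zero_smul, add_zero]
    exact fun d => stab_of_exp hH.grp h1 d
  · rw [zero_smul, add_zero]
    exact fun d => stab_of_exp hH.grp h2 d

end Pool.Agent.P8H30.BP
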