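import Pool.Agent.N208.BT.Local

set_option autoImplicit false
set_option linter.unusedSectionVars false
set_option linter.unusedVariables false
set_option linter.unusedSimpArgs false

/-!
# Irreducible perfect subalgebras of `u(1, n)` contain `so(1, n)`
-/

noncomputable section

namespace Pool.Agent.P8H30.BP

open Matrix Pool.Agent.N208.BT
open Pool.Agent.N558.BTB (Hy Wp VR mat_ext brk_mulVec N_mulVec neg_def sgn_ne)

variable {n : ℕ} {𝔯 : Submodule ℝ (M n)} {u v : V n}

/-- the signs -/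
def eps (n : ℕ) (i : Fin (n + 1)) : ℂ := if i = 0 then 1 else -1

/-- the rotation -/
def Rot (x y : V n) : M n := R x y - R y x

theorem hf_neg_left (x y : V n) : hf (-x) y = -hf x y := Pool.Agent.N558.BTB.hf_neg_left x y

theorem hf_neg_right (x y : V n) : hf x (-y) = -hf x y := Pool.Agent.N558.BTB.hf_neg_right x y

theorem hf_sub_right (x y y' : V n) : hf x (y - y') = hf x y - hf x y' :=
  Pool.Agent.N558.BTB.hf_sub_right x y y'

theorem Rot_mulVec (x y w : V n) : Rot x y *ᵥ w = hf w y • x - hf w x • y := by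
  unfold Rot
  rw [sub_mulVec, R_mulVec, R_mulVec]

theorem Rot_add_left (x x' y : V n) : Rot (x + x') y = Rot x y + Rot x' y := by
  refine mat_ext fun w => ?_
  rw [add_mulVec, Rot_mulVec, Rot_mulVec, Rot_mulVec, hf_add_right]
  module

theorem Rot_add_right (x y y' : V n) : Rot x (y + y') = Rot x y + Rot x y' := by
  refine mat_ext fun w => ?_
  rw [add_mulVec, Rot_mulVec, Rot_mulVec, Rot_mulVec, hf_add_right]
  module

theorem Rot_smul_left (c : ℝ) (x y : V n) : Rot ((c : ℂ) • x) y = c • Rot x y := by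
  refine mat_ext fun w => ?_
  rw [smul_mulVec, Rot_mulVec, Rot_mulVec, hf_smul_right]
  have h1 : star (c : ℂ) = c := Complex.conj_ofReal c
  rw [h1, ← Complex.coe_smul]
  module

theorem Rot_smul_right (c : ℝ) (x y : V n) : Rot x ((c : ℂ) • y) = c • Rot x y := by
  refine mat_ext fun w => ?_
  rw [smul_mulVec, Rot_mulVec, Rot_mulVec, hf_smul_right]
  have h1 : star (c : ℂ) = c := Complex.conj_ofReal c
  rw [h1, ← Complex.coe_smul]
  module

theorem Rot_swap (x y : V n) : Rot y x = -Rot x y := by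
  unfold Rot
  rw [neg_sub]

theorem Rot_self (x : V n) : Rot x x = 0 := sub_self _

/-- The rotations of the real form are in the algebra. -/
theorem Rot_mem (H : Hy 𝔯 u v) {x y : V n} (hx : VR 𝔯 u v x) (hy : VR 𝔯 u v y) :
    Rot x y ∈ 𝔯 := by
  have huw : ∀ w, Wp 𝔯 u v w → Rot w u ∈ 𝔯 := fun w hw => hw.m
  have hvw : ∀ w, Wp 𝔯 u v w → Rot w v ∈ 𝔯 := fun w hw => ((H.iff w).1 hw).m
  have key : ∀ w w', Wp 𝔯 u v w → Wp 𝔯 u v w' →
      Rot w w' + (hf w w').re • Rot u v ∈ 𝔯 := by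
    intro w w' hw hw'
    have h1 := H.rr.br _ ((H.iff w').1 hw').m _ hw.m
    have h2 : ((hf w w').re : ℂ) = hf w w' :=
      Pool.Agent.N558.BTB.ofReal_re_of_star (by
        rw [← hf_conj]
        exact (H.real hw hw').symm)
    have e : N v w' * N u w - N u w * N v w' = Rot w w' + (hf w w').re • Rot u v := by
      refine mat_ext fun x => ?_
      rw [brk_mulVec, add_mulVec, smul_mulVec, Rot_mulVec, Rot_mulVec]
      simp only [N_mulVec, hf_sub_left, hf_smul_left, H.vu, H.uv, H.uu, H.vv, hw.u0, hw'.u0,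
        hw.v0, hw'.v0, hw.u0', hw.v0', hw'.u0', hw'.v0', ← Complex.coe_smul, h2,
        H.real hw' hw]
      module
    rwa [e] at h1
  obtain ⟨w0, hw0, hne⟩ := H.exists_ne
  have huv : Rot u v ∈ 𝔯 := by
    have h1 := key w0 w0 hw0 hw0
    rw [Rot_self, zero_add] at h1
    have h2 : (hf w0 w0).re ≠ 0 := by
      intro h3
      have h4 : ((hf w0 w0).re : ℂ) = hf w0 w0 :=
        Pool.Agent.N558.BTB.ofReal_re_of_star (hf_conj w0 w0).symm
      rw [h3] at h4
      exact neg_def H.uu H.vv H.uv hw0.u0 hw0.v0 hne h4.symm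
    have h3 := 𝔯.smul_mem ((hf w0 w0).re)⁻¹ h1
    rwa [smul_smul, inv_mul_cancel₀ h2, one_smul] at h3
  have hww : ∀ w w', Wp 𝔯 u v w → Wp 𝔯 u v w' → Rot w w' ∈ 𝔯 := by
    intro w w' hw hw'
    have h1 := 𝔯.sub_mem (key w w' hw hw') (𝔯.smul_mem (hf w w').re huv)
    rwa [add_sub_cancel_right] at h1
  obtain ⟨a, b, w, hw, rfl⟩ := hx
  obtain ⟨a', b', w', hw', rfl⟩ := hy
  have e1 : ∀ z, Rot z (0 : V n) = 0 := fun z => by
    have := Rot_smul_right 0 z 0
    rw [zero_smul] at this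
    rwa [smul_zero] at this
  simp only [Rot_add_left, Rot_add_right, Rot_smul_left, Rot_smul_right, Rot_self, smul_zero,
    zero_add, add_zero]
  have m1 : Rot v u ∈ 𝔯 := by rw [Rot_swap]; exact 𝔯.neg_mem huv
  have m2 : Rot u w' ∈ 𝔯 := by rw [Rot_swap]; exact 𝔯.neg_mem (huw _ hw')
  have m3 : Rot v w' ∈ 𝔯 := by rw [Rot_swap]; exact 𝔯.neg_mem (hvw _ hw')
  have m4 := huw _ hw
  have m5 := hvw _ hw
  have m6 := hww _ _ hw hw'
  repeat' first
    | assumption
    | apply 𝔯.add_mem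
    | apply 𝔯.smul_mem

end Pool.Agent.P8H30.BP
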