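import Pool.Agent.P8H30.BP.Real
import Pool.Agent.P8H30.BP.Grp
import Pool.Agent.N208.BT.All

set_option autoImplicit false
set_option linter.unusedSectionVars false
set_option linter.unusedVariables false

/-!
# Real frames of unitary parts of abelian varieties
-/

open Module Function TensorProduct Matrix

noncomputable section

namespace Pool.Agent.P8H30.BP

open Pool.Agent.Y102 Pool.Agent.W516.DR Pool.Agent.H204R3.GP Pool.Agent.W516.KC
  Pool.Agent.H204R3.SP Pool.Agent.TH119.MX Pool.Agent.R917 Pool.Agent.N208.AM Pool.Agent.N208.AD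
  Pool.Agent.N208.BT Pool.Agent.N163.BTRR2
open Pool.Agent.N558.BTB (Hy Wp VR)

variable {g : ℕ} {A : AbVar g} {z : Module.End ℚ A.H1} {al : ℝ} {k : ℕ}

/-- the span of the vectors `x i`, `z x i` -/
def hull (A : AbVar g) (z : Module.End ℚ A.H1) (x : Fin (k + 1) → (Fin g → ℂ)) :
    Submodule ℝ (Fin g → ℂ) :=
  Submodule.span ℝ (Set.range x ∪ Set.range fun i => A.ext z (x i))

/-- real frames of signature `(1, k)` of a simple submodule -/
structure Fr (A : AbVar g) (z : Module.End ℚ A.H1) (al : ℝ) (x : Fin (k + 1) → (Fin g → ℂ)) :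
    Prop where
  sq : ∀ i, A.ext z (A.ext z (x i)) = -(al ^ 2) • x i
  real : ∀ i j, A.E (x i) (x j) = 0
  herm : ∀ i j, A.E (x i) (A.ext z (x j)) = if i = j then (if i = 0 then al else -al) else 0
  stab : ∀ X ∈ A.NA, ∀ i, A.ext X (x i) ∈ hull A z x
  simple : ∀ U : Submodule ℝ (Fin g → ℂ), U ≤ hull A z x →
    (∀ X ∈ A.NA, ∀ u ∈ U, A.ext X u ∈ U) → (∀ u ∈ U, A.ext z u ∈ U) → U = ⊥ ∨ U = hull A z x
  gen : ∀ y : Module.End ℝ (Fin g → ℂ), (∀ P ∈ A.EA, y * A.ext P = A.ext P * y) →
    (∀ u ∈ hull A z x, y u = 0) → ∀ u ∈ V0 A z al, y u = 0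

variable {φ : V k →ₗ[ℝ] (Fin g → ℂ)}

section frame

variable (h : HP A z al) (w : WD A z al k φ) {b : Fin (k + 1) → V k}
  (hon : ∀ i j, hf (b i) (b j) = if i = j then (if i = 0 then 1 else -1) else 0)

include h w in
theorem ext_phi (x : V k) : A.ext z (φ x) = al • φ (Complex.I • x) := by
  rw [w.mulI, smul_smul, mul_inv_cancel₀ h.ne, one_smul]

include hon in
/-- coordinates -/
theorem coord (v : V k) : v = ∑ i, (sg i * hf v (b i)) • b i := by
  have h1 : Submodule.span ℂ (Set.range b) = ⊤ := by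
    refine (indep hon).span_eq_top_of_card_eq_finrank ?_
    rw [Fintype.card_fin, Module.finrank_fin_fun]
  have h2 : rem b v = 0 := by
    refine Pool.Agent.N558.BTB.nondeg fun y => ?_
    have h3 : y ∈ Submodule.span ℂ (Set.range b) := by
      rw [h1]
      exact Submodule.mem_top
    induction h3 using Submodule.span_induction with
    | mem y hy =>
      obtain ⟨i, rfl⟩ := hy
      exact rem_orth hon v i
    | zero => exact hf_zero_right _
    | add a c _ _ ha hc => rw [hf_add_right, ha, hc, add_zero]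
    | smul c a _ ha => rw [hf_smul_right, ha, mul_zero]
  exact sub_eq_zero.1 h2

theorem csmul (c : ℂ) (x : V k) : c • x = c.re • x + c.im • (Complex.I • x) := c_smul c x

include h w hon in
theorem hull_eq : hull A z (fun i => φ (b i)) = LinearMap.range φ := by
  apply le_antisymm
  · rw [hull, Submodule.span_le]
    rintro _ (⟨i, rfl⟩ | ⟨i, rfl⟩)
    · exact ⟨b i, rfl⟩
    · exact ⟨al • (Complex.I • b i), by rw [map_smul]; exact (ext_phi h w _).symm⟩
  · rintro _ ⟨v, rfl⟩
    rw [coord hon v, map_sum]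
    refine Submodule.sum_mem _ fun i _ => ?_
    rw [csmul, map_add, map_smul, map_smul]
    refine Submodule.add_mem _ (Submodule.smul_mem _ _ (Submodule.subset_span (Or.inl ⟨i, rfl⟩)))
      (Submodule.smul_mem _ _ ?_)
    rw [w.mulI]
    exact Submodule.smul_mem _ _ (Submodule.subset_span (Or.inr ⟨i, rfl⟩))

include h w hon in
/-- **Frames**. -/
theorem frame_of : Fr A z al (fun i => φ (b i)) where
  sq i := by
    rw [ext_phi h w, map_smul, ext_phi h w, smul_smul, smul_smul, Complex.I_mul_I, neg_one_smul,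
      map_neg, smul_neg, neg_smul, pow_two]
  real i j := by
    have h1 := w.form (b i) (b j)
    rw [hon] at h1
    have h2 : (if i = j then (if i = 0 then (1 : ℂ) else -1) else 0).im = 0 := by
      split_ifs <;> simp
    rw [h2] at h1
    linarith
  herm i j := by
    have h1 := w.form (b i) (Complex.I • b j)
    rw [hf_smul_right, hon] at h1
    have h2 : star Complex.I = -Complex.I := Complex.conj_I
    rw [h2] at h1
    rw [ext_phi h w, map_smul, smul_eq_mul]
    have h3 : A.E (φ (b i)) (φ (Complex.I • b j)) =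
        if i = j then (if i = 0 then (1 : ℝ) else -1) else 0 := by
      have h4 : A.E (φ (b i)) (φ (Complex.I • b j)) =
          -(-Complex.I * (if i = j then (if i = 0 then (1 : ℂ) else -1) else 0)).im := by
        linarith
      rw [h4]
      split_ifs <;> simp
    rw [h3]
    split_ifs <;> ring
  stab X hX i := by
    rw [hull_eq h w hon]
    obtain ⟨y, hy⟩ := w.stab X hX (b i)
    exact ⟨y, hy.symm⟩
  simple U hU h1 h2 := by
    rw [hull_eq h w hon] at hU ⊢
    have hI : ∀ v, φ v ∈ U → φ (Complex.I • v) ∈ U := fun v hv => by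
      rw [w.mulI]
      exact U.smul_mem _ (h2 _ hv)
    let U' : Submodule ℂ (V k) :=
      { carrier := {v | φ v ∈ U}
        zero_mem' := by
          change φ 0 ∈ U
          rw [map_zero]
          exact U.zero_mem
        add_mem' := fun {a c} ha hc => by
          change φ (a + c) ∈ U
          rw [map_add]
          exact U.add_mem ha hc
        smul_mem' := fun c a ha => by
          change φ (c • a) ∈ U
          rw [csmul, map_add, map_smul, map_smul]
          exact U.add_mem (U.smul_mem _ ha) (U.smul_mem _ (hI a ha)) }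
    rcases w.simple U' (fun X hX x hx y hy => by
      change φ y ∈ U
      rw [← hy]
      exact h1 X hX _ hx) with h3 | h3
    · left
      rw [eq_bot_iff]
      intro u hu
      obtain ⟨v, rfl⟩ := hU hu
      have h4 : v ∈ U' := hu
      rw [h3, Submodule.mem_bot] at h4
      rw [h4, map_zero]
      exact Submodule.zero_mem _
    · right
      refine le_antisymm hU ?_
      rintro _ ⟨v, rfl⟩
      have h4 : v ∈ U' := by rw [h3]; exact Submodule.mem_top
      exact h4
  gen y h1 h2 u hu := by
    refine w.gen y h1 (fun x => h2 _ ?_) u hu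
    rw [hull_eq h w hon]
    exact ⟨x, rfl⟩

end frame

/-- the signs -/
def sr {k : ℕ} (i : Fin (k + 1)) : ℝ := if i = 0 then 1 else -1

theorem sr_coe {k : ℕ} (i : Fin (k + 1)) : ((sr i : ℝ) : ℂ) = if i = 0 then 1 else -1 := by
  unfold sr
  split_ifs <;> simp

/-- the infinitesimal rotation in the plane of `x i`, `x j` -/
def rotv {E : Type} [AddCommGroup E] [Module ℝ E] (x : Fin (k + 1) → E) (i j l : Fin (k + 1)) : E :=
  (if l = j then sr j • x i else 0) - (if l = i then sr i • x j else 0)

theorem phi_rot (φ : V k →ₗ[ℝ] (Fin g → ℂ)) {b : Fin (k + 1) → V k}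
    (hon : ∀ i j, hf (b i) (b j) = if i = j then (if i = 0 then 1 else -1) else 0)
    (i j l : Fin (k + 1)) : φ (Rot (b i) (b j) *ᵥ b l) = rotv (fun i => φ (b i)) i j l := by
  rw [Rot_mulVec, hon, hon, rotv, map_sub]
  have h1 : ∀ p q : Fin (k + 1), φ ((if p = q then (if p = 0 then (1 : ℂ) else -1) else 0) • b i) =
      if p = q then sr q • φ (b i) else 0 := by
    intro p q
    split_ifs with h1 h2
    · rw [one_smul, sr, ← h1, if_pos h2, one_smul]
    · rw [neg_one_smul, sr, ← h1, if_neg h2, neg_one_smul, map_neg]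
    · rw [zero_smul, map_zero]
  have h2 : ∀ p q : Fin (k + 1), φ ((if p = q then (if p = 0 then (1 : ℂ) else -1) else 0) • b j) =
      if p = q then sr q • φ (b j) else 0 := by
    intro p q
    split_ifs with h1 h2
    · rw [one_smul, sr, ← h1, if_pos h2, one_smul]
    · rw [neg_one_smul, sr, ← h1, if_neg h2, neg_one_smul, map_neg]
    · rw [zero_smul, map_zero]
  rw [h1, h2]

/-- **The theorem on the derived algebra of a full subalgebra.** -/
theorem exists_frame (h : HP A z al) (w : WD A z al k φ) {𝔮 : Submodule ℚ (Module.End ℚ A.H1)}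
    (hq : A.Full 𝔮) : ∃ b : Fin (k + 1) → V k,
    (∀ i j, hf (b i) (b j) = if i = j then (if i = 0 then 1 else -1) else 0) ∧
    (∀ i j, Rot (b i) (b j) ∈ rW A (der 𝔮) φ) ∧
    (LPart A (V0 A z al) (der 𝔮) ∨
      ∀ m ∈ rW A (der 𝔮) φ, ∀ l, m *ᵥ b l ∈ Submodule.span ℝ (Set.range b)) := by
  have hr := main g A z al h k φ w 𝔮 hq
  have hrN := main g A z al h k φ w A.NA full_NA
  rcases dich hr with h1 | ⟨u, v, H⟩
  · obtain ⟨b, hb1, hb2⟩ := frame_A hr.br h1
    refine ⟨b, hb1, hb2, Or.inl ⟨fun X hX u hu => V0_NA h.mem hX hu, fun X hX => ?_⟩⟩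
    have hle : spE A (der 𝔮 : Set (Module.End ℚ A.H1)) ≤
        spE A (A.NA : Set (Module.End ℚ A.H1)) := spE_mono (hq.der_le.trans hq.le)
    have hleN : spE A (der A.NA : Set (Module.End ℚ A.H1)) ≤
        spE A (A.NA : Set (Module.End ℚ A.H1)) := spE_mono (full_NA.der_le.trans le_rfl)
    obtain ⟨m, hm⟩ := mat_spE h w (hleN hX)
    have hmem : m ∈ rW A (der A.NA) φ := ⟨X, hX, hm⟩
    have h3 : m ∈ rW A (der 𝔮) φ := by
      refine Submodule.span_le.2 ?_ (N400.BTSU.main _ m (hrN.sk m hmem)
        (N835.BTSJ.trace_zero hrN hmem))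
      rintro _ ⟨x, hx, rfl⟩
      exact h1 x hx
    obtain ⟨y, hy, h4⟩ := h3
    refine ⟨y, hy, fun u hu => ?_⟩
    have h5 := w.gen (X - y) (fun P hP => N835.BTSJ.comm_spE
      (Submodule.sub_mem _ (hleN hX) (hle hy)) hP) (fun x => by
        rw [LinearMap.sub_apply, hm, h4, sub_self]) u hu
    rw [LinearMap.sub_apply, sub_eq_zero] at h5
    exact h5
  · obtain ⟨b, hb⟩ := exists_fam H
    refine ⟨b, hb.on, fun i j => Rot_mem H (hb.mem i) (hb.mem j), Or.inr fun m hm l => ?_⟩
    have h1 := H.stable hm (hb.mem l)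
    rw [coord hb.on (m *ᵥ b l)]
    refine Submodule.sum_mem _ fun i _ => ?_
    have h2 := real_hf H h1 (hb.mem i)
    have h3 : sg i * hf (m *ᵥ b l) (b i) = ((sr i * (hf (m *ᵥ b l) (b i)).re : ℝ) : ℂ) := by
      rw [Complex.ofReal_mul, h2, sr_coe]
      rfl
    rw [h3, Complex.coe_smul]
    exact Submodule.smul_mem _ _ (Submodule.subset_span ⟨i, rfl⟩)

end Pool.Agent.P8H30.BP
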