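import Mathlib

set_option autoImplicit false
set_option linter.unusedSectionVars false
set_option linter.unusedVariables false

/-!
# The powers of an alternating form
-/

open Function

noncomputable section

namespace Pool.Agent.P8H30.BP

section sign

variable {m : ℕ}

/-- A permutation of the pairs which respects the pairs. -/
theorem sign_pairs (σ : Equiv.Perm (Fin m × Fin 2)) (h : ∀ i, (σ (i, 0)).1 = (σ (i, 1)).1) :
    ∃ (π : Equiv.Perm (Fin m)) (τ : Fin m → Equiv.Perm (Fin 2)),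
      (∀ i s, σ (i, s) = (π i, τ i s)) ∧
      Equiv.Perm.sign σ = ∏ i, Equiv.Perm.sign (τ i) := by
  have htwo : ∀ r : Fin 2, r = 0 ∨ r = 1 := fun r => by omega
  have hfst : ∀ i s, (σ (i, s)).1 = (σ (i, 0)).1 := by
    intro i s
    rcases htwo s with rfl | rfl
    · rfl
    · exact (h i).symm
  have hsurj : Surjective fun i => (σ (i, 0)).1 := by
    intro l
    obtain ⟨⟨i, s⟩, hi⟩ := σ.surjective (l, 0)
    refine ⟨i, ?_⟩
    change (σ (i, 0)).1 = l
    rw [← hfst i s, hi]
  have hbij : Bijective fun i => (σ (i, 0)).1 := Finite.surjective_iff_bijective.1 hsurj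
  have hinj : ∀ i, Injective fun s => (σ (i, s)).2 := by
    intro i s t hst
    have h1 : σ (i, s) = σ (i, t) := Prod.ext ((hfst i s).trans (hfst i t).symm) hst
    exact congrArg Prod.snd (σ.injective h1)
  let π : Equiv.Perm (Fin m) := Equiv.ofBijective _ hbij
  let τ : Fin m → Equiv.Perm (Fin 2) := fun i =>
    Equiv.ofBijective _ (Finite.injective_iff_bijective.1 (hinj i))
  have hσ : ∀ i s, σ (i, s) = (π i, τ i s) := fun i s => Prod.ext (hfst i s) rfl
  refine ⟨π, τ, hσ, ?_⟩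
  have e : σ = (Equiv.prodCongrLeft fun _ : Fin 2 => π) * Equiv.prodCongrRight τ := by
    ext ⟨i, s⟩ : 1
    rw [hσ]
    rfl
  rw [e, map_mul, Equiv.Perm.sign_prodCongrLeft, Equiv.Perm.sign_prodCongrRight,
    Finset.prod_const, Finset.card_univ, Fintype.card_fin, ← map_pow]
  have h2 : Equiv.Perm.sign (π ^ 2) = 1 := by
    rw [map_pow]
    exact Int.units_sq _
  rw [h2, one_mul]

theorem perm_two (τ : Equiv.Perm (Fin 2)) :
    (τ 0 = 0 ∧ τ 1 = 1 ∧ Equiv.Perm.sign τ = 1) ∨ (τ 0 = 1 ∧ τ 1 = 0 ∧ Equiv.Perm.sign τ = -1) := by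
  revert τ
  decide

end sign

variable {R : Type} [Field R] [CharZero R] {E : Type} [AddCommGroup E] [Module R E] {m : ℕ}

/-- The exterior power of an alternating bilinear form (up to a factor). -/
def pw (B : E → E → R) (m : ℕ) (v : Fin m × Fin 2 → E) : R :=
  ∑ σ : Equiv.Perm (Fin m × Fin 2), (Equiv.Perm.sign σ : ℤ) *
    ∏ i, B (v (σ (i, 0))) (v (σ (i, 1)))

/-- **The power does not vanish** on the pairs of a symplectic basis. -/
theorem pw_ne (B : E → E → R) (v : Fin m × Fin 2 → E) (c : Fin m → R) (hc : ∀ i, c i ≠ 0)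
    (h0 : ∀ i j s, i ≠ j → ∀ t, B (v (i, s)) (v (j, t)) = 0)
    (h1 : ∀ i s, B (v (i, s)) (v (i, s)) = 0)
    (h2 : ∀ i, B (v (i, 0)) (v (i, 1)) = c i) (h3 : ∀ i, B (v (i, 1)) (v (i, 0)) = -c i) :
    pw B m v ≠ 0 := by
  have key : ∀ σ : Equiv.Perm (Fin m × Fin 2), ∃ n : ℕ,
      ((Equiv.Perm.sign σ : ℤ) : R) * ∏ i, B (v (σ (i, 0))) (v (σ (i, 1))) = n * ∏ i, c i := by
    intro σ
    by_cases hσ : ∀ i, (σ (i, 0)).1 = (σ (i, 1)).1
    · obtain ⟨π, τ, h4, h5⟩ := sign_pairs σ hσ
      refine ⟨1, ?_⟩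
      have h6 : ∀ i, B (v (σ (i, 0))) (v (σ (i, 1))) =
          ((Equiv.Perm.sign (τ i) : ℤ) : R) * c (π i) := by
        intro i
        rw [h4, h4]
        rcases perm_two (τ i) with ⟨k1, k2, k3⟩ | ⟨k1, k2, k3⟩
        · rw [k1, k2, k3, h2]
          push_cast
          ring
        · rw [k1, k2, k3, h3]
          push_cast
          ring
      rw [Finset.prod_congr rfl fun i _ => h6 i, Finset.prod_mul_distrib, h5,
        Equiv.prod_comp π c, ← mul_assoc]
      have h7 : (((∏ i, Equiv.Perm.sign (τ i) : ℤˣ) : ℤ) : R) *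
          ∏ i, ((Equiv.Perm.sign (τ i) : ℤ) : R) = 1 := by
        rw [Units.coe_prod, Int.cast_prod, ← Finset.prod_mul_distrib]
        refine Finset.prod_eq_one fun i _ => ?_
        rcases perm_two (τ i) with ⟨k1, k2, k3⟩ | ⟨k1, k2, k3⟩
        · rw [k3]
          push_cast
          ring
        · rw [k3]
          push_cast
          ring
      rw [h7]
      push_cast
      ring
    · refine ⟨0, ?_⟩
      push Not at hσ
      obtain ⟨i, hi⟩ := hσ
      have h4 : B (v (σ (i, 0))) (v (σ (i, 1))) = 0 := by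
        have := h0 (σ (i, 0)).1 (σ (i, 1)).1 (σ (i, 0)).2 hi (σ (i, 1)).2
        exact this
      rw [Finset.prod_eq_zero (Finset.mem_univ i) h4]
      push_cast
      ring
  choose n hn using key
  have h4 : pw B m v = ((∑ σ, n σ : ℕ) : R) * ∏ i, c i := by
    unfold pw
    rw [Finset.sum_congr rfl fun σ _ => hn σ, ← Finset.sum_mul]
    push_cast
    rfl
  rw [h4]
  refine mul_ne_zero ?_ (Finset.prod_ne_zero_iff.2 fun i _ => hc i)
  have h5 : n 1 ≠ 0 := by
    intro h6
    have h7 := hn 1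
    rw [h6, Equiv.Perm.sign_one] at h7
    push_cast at h7
    rw [zero_mul, one_mul] at h7
    have h8 : ∏ i, c i = 0 := by
      rw [← h7]
      exact Finset.prod_congr rfl fun i _ => (h2 i).symm
    exact (Finset.prod_ne_zero_iff.2 fun i _ => hc i) h8
  have h6 : (∑ σ, n σ : ℕ) ≠ 0 := by
    intro h7
    exact h5 (Finset.sum_eq_zero_iff.1 h7 1 (Finset.mem_univ _))
  exact_mod_cast h6

end Pool.Agent.P8H30.BP
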