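import Pool.Agent.P8H30.BP.Frame

set_option autoImplicit false
set_option linter.unusedSectionVars false
set_option linter.unusedVariables false
set_option linter.unusedSimpArgs false

/-!
# The theorem on irreducible perfect subalgebras of `u(1, n)`: they contain `so(1, n)`
-/

noncomputable section

namespace Pool.Agent.P8H30.BP

open Matrix Module Pool.Agent.N208.BT Pool.Agent
open Pool.Agent.N558.BTB (Hy Wp VR mat_ext brk_mulVec N_mulVec neg_def sgn_ne nondeg)

variable {n : ℕ} {𝔯 : Submodule ℝ (M n)} {u v : V n}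

/-- The standard frame, if all long roots are in the algebra. -/
theorem frame_A (hbr : ∀ X ∈ 𝔯, ∀ Y ∈ 𝔯, X * Y - Y * X ∈ 𝔯)
    (h : ∀ x : V n, hf x x = 0 → Complex.I • R x x ∈ 𝔯) : ∃ b : Fin (n + 1) → V n,
    (∀ i j, hf (b i) (b j) = if i = j then (if i = 0 then 1 else -1) else 0) ∧
    ∀ i j, Rot (b i) (b j) ∈ 𝔯 := by
  have hon : ∀ i j : Fin (n + 1), hf (Pi.single i 1 : V n) (Pi.single j 1) =
      if i = j then (if i = 0 then 1 else -1) else 0 := by
    intro i j
    rw [N558.BTB.hf_single]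
    unfold N558.BTB.sgn
    by_cases hij : i = j
    · subst hij
      rw [Pi.single_eq_same, star_one, mul_one, if_pos rfl]
    · rw [Pi.single_eq_of_ne hij, star_zero, mul_zero, if_neg hij]
  have hI : star Complex.I = -Complex.I := Complex.conj_I
  have hII : Complex.I * Complex.I = -1 := Complex.I_mul_I
  -- rotations in the planes `(0, j)`
  have h0 : ∀ j : Fin (n + 1), j ≠ 0 →
      Rot (Pi.single 0 1 : V n) (Pi.single j 1) ∈ 𝔯 := by
    intro j hj
    set e : V n := Pi.single 0 1 with he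
    set f : V n := Pi.single j 1 with hf'
    have k1 : hf e e = 1 := by rw [he, hon, if_pos rfl, if_pos rfl]
    have k2 : hf f f = -1 := by rw [hf', hon, if_pos rfl, if_neg hj]
    have k3 : hf e f = 0 := by rw [he, hf', hon, if_neg (Ne.symm hj)]
    have k4 : hf f e = 0 := by rw [he, hf', hon, if_neg hj]
    have k5 : hf (e + Complex.I • f) (e + Complex.I • f) = 0 := by
      simp only [hf_add_left, hf_add_right, hf_smul_left, hf_smul_right, k1, k2, k3, k4, hI]
      linear_combination hII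
    have k6 : hf (e - Complex.I • f) (e - Complex.I • f) = 0 := by
      simp only [hf_sub_left, hf_sub_right, hf_smul_left, hf_smul_right, k1, k2, k3, k4, hI]
      linear_combination hII
    have h1 := 𝔯.sub_mem (h _ k5) (h _ k6)
    have h2 := 𝔯.smul_mem (1 / 2 : ℝ) h1
    have h3 : (1 / 2 : ℝ) • (Complex.I • R (e + Complex.I • f) (e + Complex.I • f) -
        Complex.I • R (e - Complex.I • f) (e - Complex.I • f)) = Rot e f := by
      refine mat_ext fun x => ?_
      rw [smul_mulVec, sub_mulVec, smul_mulVec, smul_mulVec, R_mulVec, R_mulVec, Rot_mulVec]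
      simp only [hf_add_right, hf_sub_right, hf_smul_right, hI, ← Complex.coe_smul]
      push_cast
      have e1 : (1 / 2 : ℂ) • (Complex.I • (hf x e + -Complex.I * hf x f) • (e + Complex.I • f) -
          Complex.I • (hf x e - -Complex.I * hf x f) • (e - Complex.I • f)) =
          (-(Complex.I * Complex.I) * hf x f) • e + ((Complex.I * Complex.I) * hf x e) • f := by
        module
      rw [e1, hII]
      module
    rwa [h3] at h2
  refine ⟨fun i => Pi.single i 1, hon, fun i j => ?_⟩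
  by_cases hij : i = j
  · subst hij
    rw [Rot_self]
    exact 𝔯.zero_mem
  by_cases hi : i = 0
  · subst hi
    exact h0 j (Ne.symm hij)
  by_cases hj : j = 0
  · subst hj
    rw [Rot_swap]
    exact 𝔯.neg_mem (h0 i hi)
  have h1 := 𝔯.neg_mem (hbr _ (h0 i hi) _ (h0 j hj))
  have e : -(Rot (Pi.single 0 1 : V n) (Pi.single i 1) * Rot (Pi.single 0 1) (Pi.single j 1) -
      Rot (Pi.single 0 1) (Pi.single j 1) * Rot (Pi.single 0 1) (Pi.single i 1)) =
      Rot (Pi.single i 1) (Pi.single j 1) := by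
    have k1 : hf (Pi.single 0 1 : V n) (Pi.single 0 1) = 1 := by rw [hon, if_pos rfl, if_pos rfl]
    have k2 : hf (Pi.single 0 1 : V n) (Pi.single i 1) = 0 := by rw [hon, if_neg (Ne.symm hi)]
    have k3 : hf (Pi.single 0 1 : V n) (Pi.single j 1) = 0 := by rw [hon, if_neg (Ne.symm hj)]
    have k4 : hf (Pi.single i 1 : V n) (Pi.single j 1) = 0 := by rw [hon, if_neg hij]
    have k5 : hf (Pi.single j 1 : V n) (Pi.single i 1) = 0 := by rw [hon, if_neg (Ne.symm hij)]
    have k6 : hf (Pi.single i 1 : V n) (Pi.single 0 1) = 0 := by rw [hon, if_neg hi]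
    have k7 : hf (Pi.single j 1 : V n) (Pi.single 0 1) = 0 := by rw [hon, if_neg hj]
    refine mat_ext fun x => ?_
    rw [neg_mulVec, brk_mulVec]
    simp only [Rot_mulVec, hf_sub_left, hf_smul_left, k1, k2, k3, k4, k5, k6, k7]
    module
  rwa [e] at h1

/-- The dichotomy. -/
theorem dich (hr : RR 𝔯) :
    (∀ x : V n, hf x x = 0 → Complex.I • R x x ∈ 𝔯) ∨ ∃ u v, Hy 𝔯 u v := by
  -- (as in the proof of `main_of`)
    rcases Nat.eq_zero_or_pos n with hn | hn
    · subst hn
      left
      intro x hx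
      have h1 : x = 0 := by
        unfold hf at hx
        simp only [Finset.univ_eq_empty, Finset.sum_empty, sub_zero] at hx
        have h2 : x 0 = 0 := by
          rcases mul_eq_zero.1 hx with h3 | h3
          · exact h3
          · exact star_eq_zero.1 h3
        funext i
        have h3 : i = 0 := by omega
        rw [h3, h2]
        rfl
      have h2 : R x x = 0 := by
        ext i j
        rw [h1, R, Matrix.of_apply, Pi.zero_apply, zero_mul]
        rfl
      rw [h2, smul_zero]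
      exact 𝔯.zero_mem
    obtain ⟨Q, hQ1, hQm, hQi, hQu, hQr, hQc⟩ := N607.BTG.main n 𝔯 hr
    obtain ⟨g, hgQ, hgt⟩ := N55.BTTR.main N415.BTFP.main n hn Q hQ1 hQm hQi hQu hQr
    obtain ⟨lam, u, v, hyp⟩ := N966.BTEV.main n g (hQu g hgQ) hgt
    obtain ⟨g', hg'Q, hg1, hg2⟩ := hQi g hgQ
    have hyp' := hyp.inv hg1 hg2
    have hsk : ∀ y ∈ 𝔯, IsSk y := hr.sk
    have hc := hQc g hgQ g' hg1
    have hc' := hQc g' hg'Q g hg2
    have hvu : hf v u = 1 := hyp'.uv
    by_cases ha : ∃ y ∈ 𝔯, hf (y *ᵥ v) v ≠ 0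
    · obtain ⟨y, hy, hyv⟩ := ha
      have hu : Complex.I • R u u ∈ 𝔯 := N141.BTL2.main n 𝔯 g g' lam u v hyp hg1 hsk hc y hy hyv
      by_cases hb : ∃ y ∈ 𝔯, hf (y *ᵥ u) u ≠ 0
      · obtain ⟨y', hy', hyu⟩ := hb
        have hv : Complex.I • R v v ∈ 𝔯 :=
          N141.BTL2.main n 𝔯 g' g (star lam) v u hyp' hg2 hsk hc' y' hy' hyu
        exact Or.inl (N73.BTA.main n 𝔯 u v hr hyp.uu hyp.vv hyp.uv hu hv)
      · push Not at hb
        exfalso
        obtain ⟨y', hy', hne⟩ := Pool.Agent.N208.BT.exists_ne hr hvu hyp.uu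
        have hN := N141.BTL1.main n 𝔯 g' g (star lam) v u hyp' hg2 hsk hc' y' hy' (hb y' hy')
        have hw1 : hf (y' *ᵥ u - hf (y' *ᵥ u) v • u) v = 0 := by
          rw [hf_sub_left, hf_smul_left, hyp.uv]
          ring
        have hw2 : hf (y' *ᵥ u - hf (y' *ᵥ u) v • u) u = 0 := by
          rw [hf_sub_left, hf_smul_left, hyp.uu, hb y' hy']
          ring
        have h3 := N73.BTX.main n 𝔯 v u _ hr.br hyp.vv hyp.uu hvu hw1 hw2 hne hN hu
        have h4 := hb _ h3
        rw [iR_val hvu] at h4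
        exact Complex.I_ne_zero h4
    · push Not at ha
      have hNv : ∀ y ∈ 𝔯, N u (y *ᵥ v - hf (y *ᵥ v) u • v) ∈ 𝔯 := fun y hy =>
        N141.BTL1.main n 𝔯 g g' lam u v hyp hg1 hsk hc y hy (ha y hy)
      by_cases hb : ∃ y ∈ 𝔯, hf (y *ᵥ u) u ≠ 0
      · exfalso
        obtain ⟨y', hy', hyu⟩ := hb
        have hv : Complex.I • R v v ∈ 𝔯 :=
          N141.BTL2.main n 𝔯 g' g (star lam) v u hyp' hg2 hsk hc' y' hy' hyu
        obtain ⟨y, hy, hne⟩ := Pool.Agent.N208.BT.exists_ne hr hyp.uv hyp.vv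
        have hw1 : hf (y *ᵥ v - hf (y *ᵥ v) u • v) u = 0 := by
          rw [hf_sub_left, hf_smul_left, hvu]
          ring
        have hw2 : hf (y *ᵥ v - hf (y *ᵥ v) u • v) v = 0 := by
          rw [hf_sub_left, hf_smul_left, hyp.vv, ha y hy]
          ring
        have h3 := N73.BTX.main n 𝔯 u v _ hr.br hyp.uu hyp.vv hyp.uv hw1 hw2 hne (hNv y hy) hv
        have h4 := ha _ h3
        rw [iR_val hyp.uv] at h4
        exact Complex.I_ne_zero h4
      · push Not at hb
        have hNu : ∀ y ∈ 𝔯, N v (y *ᵥ u - hf (y *ᵥ u) v • u) ∈ 𝔯 := fun y hy =>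
          N141.BTL1.main n 𝔯 g' g (star lam) v u hyp' hg2 hsk hc' y hy (hb y hy)
        exact Or.inr ⟨u, v, hr, hyp.uu, hyp.vv, hyp.uv, hvu, ha, hb, hNv, hNu⟩

/-- **The theorem**: an irreducible perfect subalgebra of `u(1, n)` contains the infinitesimal
rotations of a real frame. -/
theorem real_main (hr : RR 𝔯) : ∃ b : Fin (n + 1) → V n,
    (∀ i j, hf (b i) (b j) = if i = j then (if i = 0 then 1 else -1) else 0) ∧
    ∀ i j, Rot (b i) (b j) ∈ 𝔯 := by
  rcases dich hr with h | ⟨u, v, H⟩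
  · exact frame_A hr.br h
  · exact frame_B H

end Pool.Agent.P8H30.BP
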