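import Pool.Agent.P8H30.BP.Part

set_option autoImplicit false
set_option linter.unusedSectionVars false
set_option linter.unusedVariables false

/-!
# Frames in the period groups
-/

open Module Function TensorProduct Matrix

noncomputable section

namespace Pool.Agent.P8H30.BP

open Pool.Agent.Y102 Pool.Agent.W516.DR Pool.Agent.H204R3.GP Pool.Agent.W516.KC
  Pool.Agent.H204R3.SP Pool.Agent.TH119.MX Pool.Agent.R917 Pool.Agent.N208.AM Pool.Agent.N208.AD
  Pool.Agent.N208.BT Pool.Agent.N163.BTRR2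

variable {g : ℕ} {A : AbVar g} {z : Module.End ℚ A.H1} {al : ℝ} {k : ℕ}
  {φ : V k →ₗ[ℝ] (Fin g → ℂ)}

section group

variable {s n : ℕ} {r : Fin s → ℕ} {B : Fin n → Ten A r} {w : Fin s → ℤ}
  {P : Matrix (Fin n) (Fin n) ℂ} {H : Set (Matrix (Fin n) (Fin n) ℂ)}
  {Wt : Matrix (Fin n) (Fin n) ℚ}

/-- **The period groups contain the rotations of a real frame.** -/
theorem main_grp (h : HP A z al) (wd : WD A z al k φ) (hM : Mot w B P) (hW : WRel w B Wt)
    (hH : PtM P H) : ∃ x : Fin (k + 1) → (Fin g → ℂ), Fr A z al x ∧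
    (∀ i j, ∃ p ∈ pR B (der A.NA), (∀ l, p.1 (x l) = rotv x i j l ∧
      p.1 (A.ext z (x l)) = A.ext z (rotv x i j l)) ∧
      ∀ t : ℂ, NormedSpace.exp (t • cxm p.2) ∈ H) ∧
    (LPart A (V0 A z al) (dq B Wt H) ∨
      ∀ Z ∈ dq B Wt H, ∀ l, A.ext Z (x l) ∈ Submodule.span ℝ (Set.range x)) := by
  have hq := qM_full hM hW hH
  obtain ⟨b, hon, hrot, hd⟩ := exists_frame h wd hq
  have hdN : dq B Wt H ≤ A.NA := fun Z hZ => (der_mem hM hW hZ).1
  have hdd : dq B Wt H ≤ der A.NA := by
    unfold dq der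
    exact Submodule.span_mono fun _ ⟨X, hX, Y, hY, e⟩ => ⟨X, hq.le hX, Y, hq.le hY, e⟩
  refine ⟨fun i => φ (b i), frame_of h wd hon, fun i j => ?_, ?_⟩
  · obtain ⟨y, hy, hyx⟩ := hrot i j
    obtain ⟨NY, hNY⟩ := exists_pR hM hdN hy
    refine ⟨(y, NY), pR_mono hdd hNY, fun l => ⟨?_, ?_⟩, fun t => ?_⟩
    · change y (φ (b l)) = _
      rw [hyx, phi_rot φ hon]
    · change y (A.ext z (φ (b l))) = _
      rw [ext_phi h wd, map_smul, hyx, mulVec_smul, ← phi_rot φ hon, ext_phi h wd]
    · exact exp_mem hH.grp fun d => (stab_spR hM hW (pR_snd hNY) d).smul t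
  · rcases hd with hd | hd
    · exact Or.inl hd
    · right
      intro Z hZ l
      have h1 : A.ext Z ∈ spE A (A.NA : Set (Module.End ℚ A.H1)) := mem_spE (hdN hZ)
      obtain ⟨m, hm⟩ := mat_spE h wd h1
      have h2 : m ∈ rW A (der (qM B Wt H)) φ := ⟨A.ext Z, mem_spE hZ, hm⟩
      have h3 := hd m h2 l
      rw [hm]
      have h4 : φ (m *ᵥ b l) ∈ (Submodule.span ℝ (Set.range b)).map φ := ⟨_, h3, rfl⟩
      rw [Submodule.map_span, ← Set.range_comp] at h4
      exact h4

/-- The lifts of the elements of the derived algebra. -/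
theorem lift_grp (hM : Mot w B P) (hW : WRel w B Wt) (hH : PtM P H) {U : Set (Fin g → ℂ)}
    (hd : LPart A U (dq B Wt H)) {p : Module.End ℝ (Fin g → ℂ) × Matrix (Fin n) (Fin n) ℝ}
    (hp : p ∈ pR B (der A.NA)) : ∃ p' ∈ pR B (der A.NA), (∀ u ∈ U, p.1 u = p'.1 u) ∧
      ∀ t : ℂ, NormedSpace.exp (t • cxm p'.2) ∈ H := by
  have hq := qM_full hM hW hH
  have hdN : dq B Wt H ≤ A.NA := fun Z hZ => (der_mem hM hW hZ).1
  have hdd : dq B Wt H ≤ der A.NA := by
    unfold dq der
    exact Submodule.span_mono fun _ ⟨X, hX, Y, hY, e⟩ => ⟨X, hq.le hX, Y, hq.le hY, e⟩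
  have h1 : p.1 ∈ spE A (der A.NA : Set (Module.End ℚ A.H1)) := by
    induction hp using Submodule.span_induction with
    | mem p hp =>
      obtain ⟨X, hX, M, hM, rfl⟩ := hp
      exact mem_spE (S := (der A.NA : Set (Module.End ℚ A.H1))) hX
    | zero => exact Submodule.zero_mem _
    | add a b _ _ ha hb => exact Submodule.add_mem _ ha hb
    | smul c a _ ha => exact Submodule.smul_mem _ c ha
  obtain ⟨y, hy, h2⟩ := hd.der _ h1
  obtain ⟨NY, hNY⟩ := exists_pR hM hdN hy
  exact ⟨(y, NY), pR_mono hdd hNY, h2, fun t => exp_mem hH.grp fun d =>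
    (stab_spR hM hW (pR_snd hNY) d).smul t⟩

end group

section span

variable {x : Fin (k + 1) → (Fin g → ℂ)}

theorem E_skew (hz : z ∈ A.EA) (hs : IsSkew A.om z) (u v : Fin g → ℂ) :
    A.E (A.ext z u) v = -A.E u (A.ext z v) := by
  have h2 : A.E.comp (A.ext z) = -(A.E.flip.comp (A.ext z)).flip := by
    refine A.ext_per fun u => A.ext_per fun v => ?_
    change A.E (A.ext z (A.per u)) (A.per v) = -A.E (A.per u) (A.ext z (A.per v))
    rw [A.ext_apply, A.ext_apply, ← A.om_coe, ← A.om_coe, ← Rat.cast_neg]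
    congr 1
    linear_combination hs u v
  exact congrArg (fun F : (Fin g → ℂ) →ₗ[ℝ] (Fin g → ℂ) →ₗ[ℝ] ℝ => F u v) h2

/-- the projection to the span of a frame -/
def prj (A : AbVar g) (z : Module.End ℚ A.H1) (al : ℝ) (x : Fin (k + 1) → (Fin g → ℂ)) :
    Module.End ℝ (Fin g → ℂ) :=
  ∑ i, (sr i * al⁻¹) • ((A.E.flip (A.ext z (x i))).smulRight (x i) -
    (A.E.flip (x i)).smulRight (A.ext z (x i)))

theorem prj_apply (v : Fin g → ℂ) : prj A z al x v = ∑ i, (sr i * al⁻¹) •
    (A.E v (A.ext z (x i)) • x i - A.E v (x i) • A.ext z (x i)) := by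
  unfold prj
  rw [LinearMap.sum_apply]
  rfl

theorem sr_sq {k : ℕ} (i : Fin (k + 1)) : sr i * sr i = 1 := by
  unfold sr
  split_ifs <;> norm_num

variable (hx : Fr A z al x) (h : HP A z al)

include hx h in
theorem prj_x (j : Fin (k + 1)) : prj A z al x (x j) = x j := by
  rw [prj_apply, Finset.sum_eq_single j]
  · rw [hx.herm, if_pos rfl, hx.real, zero_smul, sub_zero, smul_smul]
    have h1 : (if j = 0 then al else -al) = sr j * al := by
      unfold sr
      split_ifs <;> ring
    rw [h1]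
    have h2 : sr j * al⁻¹ * (sr j * al) = 1 := by
      have h3 := sr_sq j
      have h4 := inv_mul_cancel₀ h.ne
      linear_combination (al⁻¹ * al) * h3 + h4
    rw [h2, one_smul]
  · intro i _ hij
    rw [hx.herm, if_neg (Ne.symm hij), hx.real, zero_smul, zero_smul, sub_zero, smul_zero]
  · intro hj
    exact absurd (Finset.mem_univ j) hj

include hx h in
theorem prj_comm (v : Fin g → ℂ) : prj A z al x (A.ext z v) = A.ext z (prj A z al x v) := by
  rw [prj_apply, prj_apply, map_sum]
  refine Finset.sum_congr rfl fun i _ => ?_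
  rw [map_smul, map_sub, map_smul, map_smul, hx.sq, E_skew h.mem h.skew, E_skew h.mem h.skew,
    hx.sq, map_smul, smul_eq_mul]
  congr 1
  module

include hx h in
/-- **The span of a frame**, if all endomorphisms are polynomials in `z`. -/
theorem hull_top (hpol : ∀ P ∈ A.EA, ∃ q : Polynomial ℚ, P = Polynomial.aeval z q)
    {u : Fin g → ℂ} (hu : u ∈ V0 A z al) : u ∈ hull A z x := by
  have hc : ∀ q : Polynomial ℚ, prj A z al x * A.ext (Polynomial.aeval z q) =
      A.ext (Polynomial.aeval z q) * prj A z al x := by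
    intro q
    induction q using Polynomial.induction_on' with
    | add p q hp hq => rw [map_add, ext_add, mul_add, add_mul, hp, hq]
    | monomial n c =>
      have h1 : ∀ n : ℕ, prj A z al x * A.ext (z ^ n) = A.ext (z ^ n) * prj A z al x := by
        intro n
        induction n with
        | zero =>
          rw [pow_zero]
          have : A.ext (1 : Module.End ℚ A.H1) = 1 := by
            refine A.ext_per fun u => ?_
            rw [A.ext_apply]
            rfl
          rw [this, mul_one, one_mul]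
        | succ n ih =>
          have h2 : prj A z al x * A.ext z = A.ext z * prj A z al x :=
            LinearMap.ext fun v => prj_comm hx h v
          rw [pow_succ, ext_mul, ← mul_assoc, ih, mul_assoc, h2, mul_assoc]
      rw [← Polynomial.C_mul_X_pow_eq_monomial, map_mul, Polynomial.aeval_C, map_pow,
        Polynomial.aeval_X, ← Algebra.smul_def]
      rw [ext_smul, mul_smul_comm, smul_mul_assoc, h1]
  have h1 := hx.gen (1 - prj A z al x) (fun P hP => by
    obtain ⟨q, rfl⟩ := hpol P hP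
    rw [sub_mul, mul_sub, one_mul, mul_one, hc]) (fun v hv => ?_) u hu
  · rw [LinearMap.sub_apply, Module.End.one_apply, sub_eq_zero] at h1
    rw [h1, prj_apply]
    exact Submodule.sum_mem _ fun i _ => Submodule.smul_mem _ _ (Submodule.sub_mem _
      (Submodule.smul_mem _ _ (Submodule.subset_span (Or.inl ⟨i, rfl⟩)))
      (Submodule.smul_mem _ _ (Submodule.subset_span (Or.inr ⟨i, rfl⟩))))
  · rw [LinearMap.sub_apply, Module.End.one_apply, sub_eq_zero]
    unfold hull at hv
    induction hv using Submodule.span_induction with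
    | mem v hv =>
      rcases hv with ⟨j, rfl⟩ | ⟨j, rfl⟩
      · exact (prj_x hx h j).symm
      · change A.ext z (x j) = _
        rw [prj_comm hx h, prj_x hx h]
    | zero => rw [map_zero]
    | add a c _ _ ha hc => rw [map_add, ← ha, ← hc]
    | smul c a _ ha => rw [map_smul, ← ha]

end span

end Pool.Agent.P8H30.BP
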